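import Pool.Agent.U192.PB.Etale
import Pool.Agent.TH122.AB.Plc
import Pool.Agent.Y172.Fld
import Pool.Agent.Y172.Cov2
import Pool.Agent.W824.PG.Many

/-!
Functions on a product of two varieties which are regular at the prime divisors which dominate both
factors.
-/

set_option autoImplicit false
set_option linter.overlappingInstances false
set_option linter.unusedSectionVars false

open FF Pool.Agent.W603.LV MvPolynomial Pool.Agent.TH122.AB
open Pool.Agent.W602.GT (DerReg Divisorial)
open Pool.Agent.W619.TW (RR)

namespace Pool.Agent.U192.PB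

section

variable {k F : Type} [Field k] [Field F] [Algebra k F] {n : ℕ} {X : Fin n → F}

/-- the place `v` is the one of the irreducible polynomial `p` -/
def IsAdic (X : Fin n → F) (p : MvPolynomial (Fin n) k) (v : Place k F) : Prop :=
  v.ord (aeval X p) = 1 ∧ ∀ P, P ≠ 0 → 0 ≤ v.ord (aeval X P) ∧ (v.ord (aeval X P) = 0 ↔ ¬ p ∣ P)

theorem exists_red (h : Gens (k := k) X) (z : F) : ∃ P Q : MvPolynomial (Fin n) k, Q ≠ 0 ∧
    IsRelPrime P Q ∧ z = aeval X P / aeval X Q := by
  obtain ⟨P0, Q0, hQ0, hz1⟩ := h.gen z
  obtain ⟨a', b', c', hcop, ha, hb⟩ :=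
    UniqueFactorizationMonoid.exists_reduced_factors' P0 Q0 hQ0
  refine ⟨a', b', ?_, hcop, ?_⟩
  · rintro rfl
    apply hQ0
    rw [← hb, mul_zero]
  · have hc' : c' ≠ 0 := by
      rintro rfl
      apply hQ0
      rw [← hb, zero_mul]
    have hcX := h.ne hc'
    rw [hz1, ← ha, ← hb, map_mul, map_mul, mul_div_mul_left _ _ hcX]

/-- regular functions are fractions with a denominator which is not divisible by `p` -/
theorem reg_frac (h : Gens (k := k) X) {p : MvPolynomial (Fin n) k} (hp : Irreducible p)
    {v : Place k F} (hv : IsAdic X p v) {z : F} (hz : v.Reg z) :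
    ∃ P Q : MvPolynomial (Fin n) k, ¬ p ∣ Q ∧ z = aeval X P / aeval X Q := by
  obtain ⟨P, Q, hQ, hcop, hz1⟩ := exists_red h z
  by_cases hpQ : p ∣ Q
  · have hpP : ¬ p ∣ P := fun hpP => hp.not_isUnit (hcop hpP hpQ)
    have hP : P ≠ 0 := by
      rintro rfl
      exact hpP (dvd_zero _)
    have h2 := (hv.2 P hP).2.2 hpP
    have h3 : 0 < v.ord (aeval X Q) := by
      have h4 := hv.2 Q hQ
      rcases lt_or_eq_of_le h4.1 with h5 | h5
      · exact h5
      · exact absurd hpQ (h4.2.1 h5.symm)
    exfalso
    have hz0 : z ≠ 0 := by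
      rw [hz1]
      exact div_ne_zero (h.ne hP) (h.ne hQ)
    rw [v.reg_iff hz0, hz1, v.ord_div (h.ne hP) (h.ne hQ), h2] at hz
    omega
  · exact ⟨P, Q, hpQ, hz1⟩

theorem exp_zero {p : MvPolynomial (Fin n) k} {j : Fin n} (h : degreeOf j p = 0) {m : Fin n →₀ ℕ}
    (hm : m ∈ p.support) : m j = 0 := by
  have h1 : m j ≤ degreeOf j p := by
    rw [degreeOf_eq_sup]
    exact Finset.le_sup (f := fun m : Fin n →₀ ℕ => m j) hm
  omega

/-- **Adic places are divisorial.** -/
theorem adic_div {p : MvPolynomial (Fin n) k} (hp : Irreducible p) {v : Place k F}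
    (h : Gens (k := k) X) (hv : IsAdic X p v) : Divisorial n v := by
  classical
  -- a variable which occurs in `p`
  obtain ⟨j, hj⟩ : ∃ j, 0 < degreeOf j p := by
    by_contra hcon
    push Not at hcon
    apply hp.not_isUnit
    obtain ⟨c, hc⟩ : ∃ c, p = C c := by
      refine ⟨coeff 0 p, ?_⟩
      ext m
      rw [coeff_C]
      by_cases hm : m ∈ p.support
      · have h2 : m = 0 := by
          ext i
          exact exp_zero (Nat.le_zero.1 (hcon i)) hm
        rw [h2, if_pos rfl]
      · rw [notMem_support_iff] at hm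
        split_ifs with h
        · rw [h]
        · exact hm
    have hc0 : c ≠ 0 := by
      rintro rfl
      apply hp.ne_zero
      rw [hc, C_0]
    rw [hc]
    exact (isUnit_iff_ne_zero.2 hc0).map C
  cases n with
  | zero => exact j.elim0
  | succ n =>
    have key : ∀ G : MvPolynomial (Fin n) k, G ≠ 0 → aeval (fun i => X (j.succAbove i)) G ≠ 0 ∧
        v.ord (aeval (fun i => X (j.succAbove i)) G) = 0 := ?_
    · exact ⟨fun i => X (j.succAbove i), key⟩
    intro G hG
    have h1 : aeval (fun i => X (j.succAbove i)) G = aeval X (rename j.succAbove G) := by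
      rw [aeval_rename]
      rfl
    rw [h1]
    have h2 : rename j.succAbove G ≠ 0 := by
      rw [Ne, (rename_injective _ Fin.succAbove_right_injective).eq_iff' (map_zero _)]
      exact hG
    refine ⟨h.ne h2, ?_⟩
    rw [(hv.2 _ h2).2]
    rintro ⟨r, hr⟩
    have hr0 : r ≠ 0 := by
      rintro rfl
      rw [mul_zero] at hr
      exact h2 hr
    have h3 : degreeOf j (rename j.succAbove G) = 0 := by
      rw [degreeOf_eq_sup, ← Nat.le_zero, Finset.sup_le_iff]
      intro m hm
      by_contra hne
      have h4 : j ∈ (rename j.succAbove G).vars := by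
        rw [mem_vars]
        exact ⟨m, hm, Finsupp.mem_support_iff.2 fun h0 => hne h0.le⟩
      have h5 := vars_rename j.succAbove G h4
      rw [Finset.mem_image] at h5
      obtain ⟨i, -, hi⟩ := h5
      exact Fin.succAbove_ne j i hi
    rw [hr, degreeOf_mul_eq hp.ne_zero hr0] at h3
    omega

end

section

variable {k0 k F : Type} [Field k0] [Field k] [Algebra k0 k] [Field F] [Algebra k F] {n : ℕ}
  {X : Fin n → F}

theorem exists_mult (Q : MvPolynomial (Fin n) k) (hQ : Q ≠ 0)
    (h : ∀ p : MvPolynomial (Fin n) k, Irreducible p → p ∣ Q →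
      ∃ q : MvPolynomial (Fin n) k0, q ≠ 0 ∧ p ∣ map (algebraMap k0 k) q) :
    ∃ q : MvPolynomial (Fin n) k0, q ≠ 0 ∧ Q ∣ map (algebraMap k0 k) q := by
  revert hQ h
  refine UniqueFactorizationMonoid.induction_on_prime Q ?_ ?_ ?_
  · intro h
    exact absurd rfl h
  · intro x hx _ _
    exact ⟨1, one_ne_zero, hx.dvd⟩
  · intro a p ha hp ih hpa h
    obtain ⟨q1, hq1, h1⟩ := ih ha fun p' hp' hd => h p' hp' (hd.mul_left p)
    obtain ⟨q2, hq2, h2⟩ := h p hp.irreducible (dvd_mul_right p a)
    refine ⟨q2 * q1, mul_ne_zero hq2 hq1, ?_⟩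
    rw [map_mul]
    exact mul_dvd_mul h2 h1

/-- functions which are regular at the places which are not trivial on the small field -/
theorem frac_of_reg (h : Gens (k := k) X) {z : F}
    (hz : ∀ p : MvPolynomial (Fin n) k, Irreducible p →
      (∀ q : MvPolynomial (Fin n) k0, q ≠ 0 → ¬ p ∣ map (algebraMap k0 k) q) →
      ∀ v : Place k F, IsAdic X p v → v.Reg z) :
    ∃ (P : MvPolynomial (Fin n) k) (q : MvPolynomial (Fin n) k0), q ≠ 0 ∧
      z = aeval X P / aeval X (map (algebraMap k0 k) q) := by
  obtain ⟨P, Q, hQ, hcop, hz1⟩ := exists_red h z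
  obtain ⟨q, hq0, R, hR⟩ := exists_mult (k0 := k0) Q hQ fun p hp hpQ => by
    by_contra hcon
    push Not at hcon
    obtain ⟨v, hv1, hv2⟩ := exists_adic h hp
    have hv : IsAdic X p v := ⟨hv1, hv2⟩
    have h1 := hz p hp hcon v hv
    have hpP : ¬ p ∣ P := fun hpP => hp.not_isUnit (hcop hpP hpQ)
    have hP : P ≠ 0 := by
      rintro rfl
      exact hpP (dvd_zero _)
    have h2 := (hv.2 P hP).2.2 hpP
    have h3 : 0 < v.ord (aeval X Q) := by
      have h4 := hv.2 Q hQ
      rcases lt_or_eq_of_le h4.1 with h5 | h5
      · exact h5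
      · exact absurd hpQ (h4.2.1 h5.symm)
    have hz0 : z ≠ 0 := by
      rw [hz1]
      exact div_ne_zero (h.ne hP) (h.ne hQ)
    rw [v.reg_iff hz0, hz1, v.ord_div (h.ne hP) (h.ne hQ), h2] at h1
    omega
  refine ⟨P * R, q, hq0, ?_⟩
  have hR0 : R ≠ 0 := by
    rintro rfl
    rw [mul_zero] at hR
    exact hq0 ((map_injective _ (algebraMap k0 k).injective).eq_iff' (map_zero _) |>.1 hR)
  rw [hR, map_mul, map_mul, mul_div_mul_right _ _ (h.ne hR0)]
  exact hz1

end

/-- a basis consisting of elements of a spanning set -/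
theorem exists_basis_mem {K L : Type} [Field K] [Field L] [Algebra K L] [FiniteDimensional K L]
    (S : Set L) (hS : ⊤ ≤ Submodule.span K S) :
    ∃ (δ : ℕ) (b : Module.Basis (Fin δ) K L), ∀ j, b j ∈ S := by
  classical
  let B := Module.Basis.ofSpan hS
  have hfin : Finite (LinearIndepOn.extend (linearIndepOn_empty K id) (Set.empty_subset S)) :=
    Module.Finite.finite_basis B
  have := Fintype.ofFinite (LinearIndepOn.extend (linearIndepOn_empty K id) (Set.empty_subset S))
  refine ⟨_, B.reindex (Fintype.equivFin _), fun j => ?_⟩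
  rw [Module.Basis.reindex_apply]
  exact Module.Basis.ofSpan_subset hS ⟨_, rfl⟩

section

variable {L : Type} [Field L] [Algebra ℂ L] {U T : IntermediateField ℂ L} {d n : ℕ}

/-- **Functions on the product.** A function which is regular at the divisors which dominate both
factors is a polynomial in the functions on the factors. -/
theorem mem_ring [Algebra.EssFiniteType ℂ L] (hsup : U ⊔ T = ⊤) (hU : Algebra.trdeg ℂ U = d)
    (hL : Algebra.trdeg ℂ L = (d + n : ℕ)) {t : Fin n → T} (ht : IsTranscendenceBasis ℂ t)
    {E : Fin n → Derivation U L L} {E' : Fin n → Derivation ℂ T T}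
    (hE : ∀ i j, E i (t j : L) = if i = j then 1 else 0)
    (hEE : ∀ i (z : T), E i (z : L) = (E' i z : L)) {f : L}
    (hf : ∀ Q : Place U L, Divisorial n Q → (∀ τ : T, Q.Reg (τ : L)) →
      (∀ i, DerReg Q (E i)) → Ge Q 0 f) : f ∈ RR T U := by
  classical
  have hbas := basis_over hsup hU hL ht
  have hess : Algebra.EssFiniteType U L := Algebra.EssFiniteType.of_comp ℂ U L
  have hc0 : CharZero U := charZero_of_injective_algebraMap (algebraMap ℂ U).injective
  let W : IntermediateField U L := IntermediateField.adjoin U (Set.range fun i => (t i : L))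
  have hfd : FiniteDimensional W L := Pool.Agent.W824.PG.fin_adj hess _ hbas
  have htow : IsScalarTower ℂ W L := IsScalarTower.of_algebraMap_eq fun _ => rfl
  obtain ⟨X, hX⟩ : ∃ X : Fin n → W, ∀ j, (X j : L) = (t j : L) :=
    ⟨fun j => ⟨(t j : L), IntermediateField.subset_adjoin U _ ⟨j, rfl⟩⟩, fun _ => rfl⟩
  have hgens : Gens (k := U) X :=
    Pool.Agent.Y172.gens_of (Z := fun i => (t i : L)) hbas.1 (E := W) rfl hX
  -- the small field
  let N : IntermediateField ℂ T := IntermediateField.adjoin ℂ (Set.range t)
  have hNT : Algebra.IsAlgebraic N T := ht.isAlgebraic_field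
  have hNW : ∀ c : N, ((c : T) : L) ∈ W := by
    have h3 : N.map T.val ≤ W.restrictScalars ℂ := by
      rw [IntermediateField.adjoin_map, IntermediateField.adjoin_le_iff]
      rintro _ ⟨_, ⟨i, rfl⟩, rfl⟩
      exact IntermediateField.subset_adjoin U _ ⟨i, rfl⟩
    intro c
    exact h3 ⟨c, c.2, rfl⟩
  let φ : N →+* W :=
    { toFun := fun c => ⟨((c : T) : L), hNW c⟩
      map_one' := rfl
      map_mul' := fun _ _ => rfl
      map_zero' := rfl
      map_add' := fun _ _ => rfl }
  let iNW : Algebra N W := φ.toAlgebra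
  have hNWL : IsScalarTower N W L := IsScalarTower.of_algebraMap_eq fun _ => rfl
  have hTint : ∀ τ : T, IsIntegral N (τ : L) := fun τ =>
    (hNT.isAlgebraic τ).isIntegral.algebraMap
  -- the basis
  have hspan : ⊤ ≤ Submodule.span W (T : Set L) := by
    have h1 : IntermediateField.adjoin W (T : Set L) = ⊤ := by
      rw [eq_top_iff]
      have h2 : (⊤ : IntermediateField ℂ L) ≤
          (IntermediateField.adjoin W (T : Set L)).restrictScalars ℂ := by
        rw [← hsup, sup_le_iff]
        constructor
        · intro y hy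
          exact (IntermediateField.adjoin W (T : Set L)).algebraMap_mem
            ⟨y, W.algebraMap_mem ⟨y, hy⟩⟩
        · intro y hy
          exact IntermediateField.subset_adjoin W _ hy
      intro y _
      exact h2 (by trivial : y ∈ (⊤ : IntermediateField ℂ L))
    have h2 := IntermediateField.adjoin_toSubalgebra_of_isAlgebraic (F := W) (E := L)
      (S := (T : Set L)) fun x _ => Algebra.IsAlgebraic.isAlgebraic x
    rw [h1, IntermediateField.top_toSubalgebra] at h2
    have h3 := Algebra.adjoin_eq_span W (T : Set L)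
    rw [← h2, Algebra.top_toSubmodule] at h3
    have h4 : (Submonoid.closure (T : Set L) : Set L) = (T : Set L) := by
      have : (Submonoid.closure (T : Set L)) = T.toSubfield.toSubmonoid := by
        apply le_antisymm
        · rw [Submonoid.closure_le]; exact fun z hz => hz
        · exact fun z hz => Submonoid.subset_closure hz
      rw [this]
      rfl
    rw [h4] at h3
    exact h3.le
  obtain ⟨δ, b, hb⟩ := exists_basis_mem (K := W) (T : Set L) hspan
  have hbint : ∀ j, IsIntegral N (b j) := fun j => hTint ⟨b j, hb j⟩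
  have hpoly : ∀ P : MvPolynomial (Fin n) U, ((aeval X P : W) : L) =
      aeval (fun i => (t i : L)) P := by
    intro P
    have h1 := (MvPolynomial.aeval_algebraMap_apply L X P).symm
    have h2 : (fun j => algebraMap W L (X j)) = fun i => (t i : L) := funext hX
    change (algebraMap W L) (MvPolynomial.aeval X P) = _
    rw [h1]
    congr 1
    exact congrArg _ h2
  have hmap : ∀ q : MvPolynomial (Fin n) ℂ, ((aeval X (map (algebraMap ℂ U) q) : W) : L) =
      ((aeval t q : T) : L) := by
    intro q
    rw [hpoly, aeval_map_algebraMap]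
    exact MvPolynomial.aeval_algebraMap_apply L t q
  -- the coefficients
  have hcoef : ∀ j, ∃ (P : MvPolynomial (Fin n) U) (q : MvPolynomial (Fin n) ℂ), q ≠ 0 ∧
      b.equivFun f j = aeval X P / aeval X (map (algebraMap ℂ U) q) := by
    intro j
    refine frac_of_reg (k0 := ℂ) hgens fun p hp hpq v hv => ?_
    have hvN : ∀ c : N, v.Reg (algebraMap N W c) := by
      intro c
      obtain ⟨a, a', ha', hc⟩ := (Pool.Agent.Y172.gens_of (Z := t) ht.1 (E := N) rfl
        (X := fun j => (⟨t j, IntermediateField.subset_adjoin ℂ _ ⟨j, rfl⟩⟩ : N))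
        (fun _ => rfl)).gen c
      have hcoe : ∀ q : MvPolynomial (Fin n) ℂ, algebraMap N W (aeval
          (fun j => (⟨t j, IntermediateField.subset_adjoin ℂ _ ⟨j, rfl⟩⟩ : N)) q) =
          aeval X (map (algebraMap ℂ U) q) := by
        intro q
        apply Subtype.ext
        rw [hmap]
        have h1 := MvPolynomial.aeval_algebraMap_apply T
          (fun j => (⟨t j, IntermediateField.subset_adjoin ℂ _ ⟨j, rfl⟩⟩ : N)) q
        have h2 : (aeval t q : T) = ((aeval (fun j => (⟨t j, IntermediateField.subset_adjoin ℂ _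
          ⟨j, rfl⟩⟩ : N)) q : N) : T) := h1
        rw [h2]
        rfl
      rw [hc, map_div₀, hcoe, hcoe]
      have h1 : map (algebraMap ℂ U) a' ≠ 0 := fun h0 => ha'
        (((map_injective _ (algebraMap ℂ U).injective).eq_iff' (map_zero _)).1 h0)
      have h2 := (hv.2 _ h1).2.2 (hpq a' ha')
      by_cases h3 : map (algebraMap ℂ U) a = 0
      · rw [h3, map_zero, zero_div]
        exact Or.inl rfl
      · right
        rw [v.ord_div (hgens.ne h3) (hgens.ne h1), h2, sub_zero]
        exact (hv.2 _ h3).1
    refine coord_reg b hbint hvN (fun Q e hQ => ?_) j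
    refine hf Q ?_ (fun τ => over_reg_alg hQ hvN (hTint τ)) fun i => ?_
    · exact Pool.Agent.Y172.divisorial_up hQ (adic_div hp hgens hv)
    · refine der_reg b hbint hvN (fun z hz => ?_) (fun l => ?_) hQ
      · -- the partial derivatives
        obtain ⟨P, R, hR, hz1⟩ := reg_frac hgens hp hv hz
        have hR0 : R ≠ 0 := by
          rintro rfl
          exact hR (dvd_zero _)
        have hder : ∀ G : MvPolynomial (Fin n) U, E i ((aeval X G : W) : L) =
            ((aeval X (pderiv i G) : W) : L) := by
          intro G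
          rw [hpoly, hpoly]
          induction G using MvPolynomial.induction_on with
          | C c =>
            rw [aeval_C, pderiv_C, map_zero]
            exact (E i).map_algebraMap c
          | add p q hp hq => rw [map_add, map_add, map_add, hp, hq, map_add]
          | mul_X p l hp =>
            rw [map_mul, aeval_X, (E i).leibniz, hp, hE, smul_eq_mul, smul_eq_mul,
              Derivation.leibniz, smul_eq_mul, smul_eq_mul, map_add, map_mul, map_mul, aeval_X,
              pderiv_X]
            by_cases h : i = l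
            · subst h
              rw [if_pos rfl, Pi.single_eq_same, map_one]
            · rw [if_neg h, Pi.single_eq_of_ne (Ne.symm h), map_zero]
        have hR1 : ((aeval X R : W) : L) ≠ 0 := by
          rw [Ne, ZeroMemClass.coe_eq_zero]
          exact hgens.ne hR0
        refine ⟨((aeval X R)⁻¹) ^ 2 * (aeval X R * aeval X (pderiv i P) -
          aeval X P * aeval X (pderiv i R)), ?_, ?_⟩
        · have h1 : algebraMap W L z = ((aeval X P : W) : L) / ((aeval X R : W) : L) := by
            rw [hz1, map_div₀]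
            rfl
          rw [h1, (E i).leibniz_div, hder, hder]
          rfl
        · have h2 := (hv.2 _ hR0).2.2 hR
          have h3 : ∀ G : MvPolynomial (Fin n) U, Ge v 0 (aeval X G) := by
            intro G
            by_cases hG : G = 0
            · rw [hG, map_zero]
              exact Or.inl rfl
            · exact Or.inr (hv.2 G hG).1
          have h4 : Ge v 0 (((aeval X R)⁻¹) ^ 2 : W) := by
            right
            rw [v.ord_pow, v.ord_inv, h2]
            simp
          have h5 := (h3 R).mul (h3 (pderiv i P))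
          have h6 := (h3 P).mul (h3 (pderiv i R))
          have h7 := h4.mul (h5.add h6.neg)
          rw [zero_add, zero_add] at h7
          rw [sub_eq_add_neg]
          exact h7
      · have h1 : E i (b l) = ((E' i ⟨b l, hb l⟩ : T) : L) := hEE i ⟨b l, hb l⟩
        rw [h1]
        exact hTint _
  rw [← b.sum_equivFun f]
  refine Subalgebra.sum_mem _ fun j _ => ?_
  obtain ⟨P, q, hq, he⟩ := hcoef j
  rw [he, Algebra.smul_def, map_div₀]
  refine mul_mem ?_ (RR.left (hb j))
  rw [div_eq_mul_inv]
  refine mul_mem ?_ ?_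
  · change ((aeval X P : W) : L) ∈ RR T U
    rw [hpoly]
    clear he
    induction P using MvPolynomial.induction_on with
    | C c =>
      rw [aeval_C]
      exact (RR T U).algebraMap_mem c
    | add p q hp hq =>
      rw [map_add]
      exact add_mem hp hq
    | mul_X p l hp =>
      rw [map_mul, aeval_X]
      exact mul_mem hp (RR.left (t l).2)
  · change (((aeval X (map (algebraMap ℂ U) q) : W) : L))⁻¹ ∈ RR T U
    rw [hmap]
    exact RR.left (T.inv_mem (aeval t q : T).2)

end

end Pool.Agent.U192.PB
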