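import Pool.Agent.U192.PB.GaussOver

/-!
Base change for the numerical dimension: the generic fibre of a product `X × Y → X`.
-/

set_option autoImplicit false
set_option linter.overlappingInstances false
set_option linter.unusedSectionVars false

open FF IntermediateField Pool.Agent.W619.PQ Pool.Agent.W619.TW Pool.Agent.W603.LV
open Pool.Agent.W602.GT (Divisorial DerReg)

namespace Pool.Agent.U192.PB

section

variable {k K : Type} [Field k] [Field K] [Algebra k K] {n : ℕ}

theorem det_lin (t : Fin n → K) (A : Matrix (Fin n) (Fin n) K) (G : Fin n → Derivation k K K) :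
    (Matrix.of fun i j => (∑ l, A i l • G l) (t j)).det =
      A.det * (Matrix.of fun i j => G i (t j)).det := by
  have h1 : (Matrix.of fun i j => (∑ l, A i l • G l) (t j)) =
      A * Matrix.of fun i j => G i (t j) := by
    ext i j
    rw [Matrix.mul_apply, Matrix.of_apply, Pool.Agent.W721.PG.EFF2.der_sum]
    rfl
  rw [h1, Matrix.det_mul]

/-- the form `f (dt)^m` -/
theorem det_pluri (t : Fin n → K) (f : K) (m : ℕ) :
    IsPluriForm k K n m (fun G => (Matrix.of fun i j => G i (t j)).det ^ m * f) := by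
  intro A G
  change (Matrix.of fun i j => (∑ l, A i l • G l) (t j)).det ^ m * f = _
  rw [det_lin, mul_pow]
  ring

end

section

variable {L : Type} [Field L] [Algebra ℂ L] {U T : IntermediateField ℂ L} {d n : ℕ}

theorem reg_ring {Q : Place U L} (hQ : ∀ τ : T, Q.Reg (τ : L)) {z : L} (hz : z ∈ RR T U) :
    Ge Q 0 z := by
  unfold RR at hz
  induction hz using Algebra.adjoin_induction with
  | mem x hx => exact hQ ⟨x, hx⟩
  | algebraMap c => exact Ge.const c
  | add x y _ _ hx hy => exact hx.add hy
  | mul x y _ _ hx hy =>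
    have h1 := hx.mul hy
    rwa [zero_add] at h1

theorem coef_sec (h : Lin T U) {t : Fin n → T} (ht : IsTranscendenceBasis ℂ t)
    (hbas : IsTranscendenceBasis U (fun i => (t i : L)))
    {E : Fin n → Derivation U L L} {E' : Fin n → Derivation ℂ T T}
    (hE : ∀ i j, E i (t j : L) = if i = j then 1 else 0)
    (hE' : ∀ i j, E' i (t j) = if i = j then 1 else 0)
    (hEE : ∀ i (z : T), E i (z : L) = (E' i z : L))
    {S : Finset L} {ST : Finset T} {q : L} (hq0 : q ≠ 0)
    (hS : ∀ s ∈ S, ∃ (r : ℕ) (β : Fin r → U) (μ : Fin r → T), (∀ i, μ i ∈ ST) ∧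
      q * s = ∑ i, (β i : L) * (μ i : L))
    {m : ℕ} {ω : (Fin n → Derivation U L L) → L} (hω : IsSec U L n (fun _ => False) S m 1 ω)
    {r : ℕ} {β : Fin r → U} {μ : Fin r → T} (hβ : LinearIndependent ℂ β)
    (hf : q * ω E = ∑ i, (β i : L) * (μ i : L)) (i : Fin r) :
    IsSec ℂ T n (fun _ => False) ST m 1
      (fun G => (Matrix.of fun i j => G i (t j)).det ^ m * μ i) := by
  classical
  refine ⟨det_pluri t (μ i) m, fun v hv _ G hG => ?_, fun v _ h => h.elim⟩
  have hU0 : CharZero U := charZero_of_injective_algebraMap (algebraMap ℂ U).injective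
  obtain ⟨D, hD⟩ : ∃ D : Fin n → Derivation U L L, D = fun i' => ∑ j,
    ((G i' (t j) : T) : L) • E j := ⟨_, rfl⟩
  have hDG : ∀ i' (z : T), D i' (z : L) = ((G i' z : T) : L) := by
    intro i' z
    have h1 := Pool.Agent.W308.PG.YLOC.expandK (k := ℂ) (K := T) t E' ht hE' (G i')
    have h2 : G i' z = ∑ j, G i' (t j) * E' j z := by
      conv_lhs => rw [h1]
      rw [Pool.Agent.W308.PG.YLOC.der_sum_apply]
      rfl
    rw [hD, h2]
    change (∑ j, ((G i' (t j) : T) : L) • E j) (z : L) = _
    rw [Pool.Agent.W308.PG.YLOC.der_sum_apply]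
    rw [AddSubmonoidClass.coe_finsetSum]
    refine Finset.sum_congr rfl fun j _ => ?_
    change ((G i' (t j) : T) : L) * E j (z : L) = _
    rw [hEE]
    rfl
  have hDreg : ∀ i', DerReg (UF h v) (D i') := fun i' =>
    UF_pres h v _ fun μ hμ => ⟨G i' μ, hDG i' μ, hG i' μ hμ⟩
  have h1 : Dom (UF h v) S 1 (ω D) :=
    hω.2.1 (UF h v) (UF_div h hv) (fun h => h) D fun l => hDreg l
  have hdet : (Matrix.of fun i j => D i (t j : L)).det =
      (((Matrix.of fun i j => G i (t j)).det : T) : L) := by
    have h2 : (Matrix.of fun i j => D i (t j : L)) =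
        (algebraMap T L).mapMatrix (Matrix.of fun i j => G i (t j)) := by
      ext i' j
      exact hDG i' (t j)
    rw [h2, ← RingHom.map_det]
    rfl
  have h2 : ω D = _ := Pool.Agent.Y172.pluri_coord (k := U) hbas hE hω.1 D
  rw [hdet] at h2
  have h3 : q * ω D = ∑ i, (β i : L) *
      (((Matrix.of fun i j => G i (t j)).det ^ m * μ i : T) : L) := by
    have h4 : q * ω D = (((Matrix.of fun i j => G i (t j)).det : T) : L) ^ m * (q * ω E) := by
      rw [h2]
      ring
    rw [h4, hf, Finset.mul_sum]
    refine Finset.sum_congr rfl fun i' _ => ?_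
    push_cast
    ring
  rcases h1 with h1 | ⟨s, hs, hs0, h1⟩
  · left
    rw [h1, mul_zero] at h3
    have h4 := Fintype.linearIndependent_iff.1 (linDisj' h β hβ)
      (fun i' => (Matrix.of fun i j => G i (t j)).det ^ m * μ i') (by
        rw [h3]
        refine Finset.sum_congr rfl fun i' _ => ?_
        rw [Algebra.smul_def, mul_comm]
        rfl) i
    exact h4
  · by_cases h0 : (Matrix.of fun i j => G i (t j)).det ^ m * μ i = 0
    · exact Or.inl h0
    right
    obtain ⟨r', β', μ', hST, e⟩ := hS s hs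
    have hqs : q * s ≠ 0 := mul_ne_zero hq0 hs0
    obtain ⟨i', hi', hi''⟩ := UU_low h v β' μ' (by rw [← e]; exact hqs)
    rw [← e] at hi''
    refine ⟨μ' i', hST i', hi', ?_⟩
    have h4 : Ge (UU h v) ((UU h v).ord (q * s)) (q * ω D) := by
      by_cases h5 : ω D = 0
      · left
        rw [h5, mul_zero]
      right
      rw [(UU h v).ord_mul hq0 hs0, (UU h v).ord_mul hq0 h5]
      have h6 : ((1 : ℕ) : ℤ) * (UU h v).ord s ≤ (UU h v).ord (ω D) := h1
      push_cast at h6
      linarith
    rw [h3] at h4
    have h5 := (UU_fam h v r β _ _ hβ h4 i).resolve_left h0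
    have h6 : ((1 : ℕ) : ℤ) * v.ord (μ' i') = v.ord (μ' i') := by push_cast; ring
    rw [h6]
    exact hi''.trans h5

/-- **Base change.** The generic fibre of `X × Y → X` has at most the numerical dimension of
`Y`. -/
theorem numLe_base [Algebra.EssFiniteType ℂ L] (hsup : U ⊔ T = ⊤) (hU : Algebra.trdeg ℂ U = d)
    (hT : Algebra.trdeg ℂ T = n) (hL : Algebra.trdeg ℂ L = (d + n : ℕ)) {a : ℕ}
    (hnum : NumLe ℂ T n (fun _ => False) a) : NumLe U L n (fun _ => False) a := by
  classical
  have h := lin_of hsup hU hT hL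
  obtain ⟨t, ht⟩ := Pool.Agent.W636.PG.exists_basis ℂ T n hT
  obtain ⟨E, E', hE, hE', hEE⟩ := exists_der_along hsup hU hL ht
  have hbas := basis_over hsup hU hL ht
  intro S
  obtain ⟨q, hq, hq0, hqS⟩ := exists_den h S
  have hexp : ∀ s : L, ∃ (r : ℕ) (β : Fin r → U) (μ : Fin r → T), s ∈ S →
      q * s = ∑ i, (β i : L) * (μ i : L) := by
    intro s
    by_cases hs : s ∈ S
    · obtain ⟨r, β, μ, -, h1⟩ := exists_expand (hqS s hs)
      exact ⟨r, β, μ, fun _ => h1⟩
    · exact ⟨0, fun i => i.elim0, fun i => i.elim0, fun h => absurd h hs⟩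
  choose r β μ hexp' using hexp
  obtain ⟨ST, hST⟩ : ∃ ST : Finset T, ST = S.biUnion fun s => Finset.univ.image (μ s) := ⟨_, rfl⟩
  have hS : ∀ s ∈ S, ∃ (r : ℕ) (β : Fin r → U) (μ : Fin r → T), (∀ i, μ i ∈ ST) ∧
      q * s = ∑ i, (β i : L) * (μ i : L) := by
    intro s hs
    refine ⟨r s, β s, μ s, fun i => ?_, hexp' s hs⟩
    rw [hST, Finset.mem_biUnion]
    exact ⟨s, hs, Finset.mem_image_of_mem _ (Finset.mem_univ i)⟩
  obtain ⟨C, hC⟩ := hnum ST
  refine ⟨C, fun m N hm hind => ?_⟩
  obtain ⟨ω, hωi, hω⟩ := hind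
  -- the coefficients
  have hring : ∀ l, q * ω l E ∈ RR T U := by
    intro l
    refine mem_ring hsup hU hL ht hE hEE fun Q hQ hQT hQE => ?_
    have h1 : Dom Q S 1 (ω l E) := (hω l).2.1 Q hQ (fun h => h) E fun i => hQE i
    rcases h1 with h1 | ⟨s, hs, hs0, h1⟩
    · left
      rw [h1, mul_zero]
    · by_cases h2 : ω l E = 0
      · left
        rw [h2, mul_zero]
      have h3 := (reg_ring hQT (hqS s hs)).resolve_left (mul_ne_zero hq0 hs0)
      rw [Q.ord_mul hq0 hs0] at h3
      right
      rw [Q.ord_mul hq0 h2]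
      push_cast at h1
      linarith
  choose rf βf μf hβf hf using fun l => exists_expand (hring l)
  have hsec : ∀ l i, IsSec ℂ T n (fun _ => False) ST m 1
      (fun G => (Matrix.of fun i j => G i (t j)).det ^ m * μf l i) := fun l i =>
    coef_sec h ht hbas hE hE' hEE hq0 hS (hω l) (hβf l) (hf l) i
  obtain ⟨B, hB⟩ : ∃ B : Finset T, B = Finset.univ.biUnion fun l : Fin N =>
    Finset.univ.image (μf l) := ⟨_, rfl⟩
  have hBmem : ∀ l i, μf l i ∈ B := by
    intro l i
    rw [hB, Finset.mem_biUnion]
    exact ⟨l, Finset.mem_univ l, Finset.mem_image_of_mem _ (Finset.mem_univ i)⟩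
  obtain ⟨b, hbB, hbspan, hbi⟩ := exists_linearIndependent ℂ (B : Set T)
  have hbfin : b.Finite := B.finite_toSet.subset hbB
  let e := hbfin.toFinset.equivFin
  have he : ∀ j, ((e.symm j : hbfin.toFinset) : T) ∈ b := fun j =>
    hbfin.mem_toFinset.1 (e.symm j).2
  have hcard : hbfin.toFinset.card ≤ C * m ^ a := by
    refine hC m _ hm ⟨fun j => fun G => (Matrix.of fun i j => G i (t j)).det ^ m *
      ((e.symm j : hbfin.toFinset) : T), ?_, fun j => ?_⟩
    · rw [Fintype.linearIndependent_iff]
      intro g hg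
      have h1 := congrFun hg E'
      rw [Finset.sum_apply] at h1
      have h2 : (Matrix.of fun i j => E' i (t j)).det = 1 := by
        have h3 : (Matrix.of fun i j => E' i (t j)) = (1 : Matrix (Fin n) (Fin n) T) := by
          ext i j
          rw [Matrix.of_apply, hE', Matrix.one_apply]
        rw [h3, Matrix.det_one]
      have h3 : ∑ j, g j • ((e.symm j : hbfin.toFinset) : T) = 0 := by
        rw [← show (0 : (Fin n → Derivation ℂ T T) → T) E' = 0 from rfl, ← h1]
        refine Finset.sum_congr rfl fun j _ => ?_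
        rw [Pi.smul_apply, h2, one_pow, one_mul]
      have h4 : LinearIndependent ℂ fun j => ((e.symm j : hbfin.toFinset) : T) := by
        have h5 := hbi.comp (fun j => (⟨_, he j⟩ : b)) (by
          intro j1 j2 hj
          have := Subtype.mk.inj hj
          exact e.symm.injective (Subtype.ext this))
        exact h5
      exact Fintype.linearIndependent_iff.1 h4 g h3
    · have h1 := hbB (he j)
      rw [hB, Finset.coe_biUnion] at h1
      obtain ⟨l, -, h2⟩ := Set.mem_iUnion₂.1 h1
      obtain ⟨i, -, h3⟩ := Finset.mem_image.1 (Finset.mem_coe.1 h2)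
      change IsSec ℂ T n (fun _ => False) ST m 1
        (fun G => (Matrix.of fun i j => G i (t j)).det ^ m * ((e.symm j : hbfin.toFinset) : T))
      rw [← h3]
      exact hsec l i
  -- the span
  let P : Submodule U L := Submodule.span U ((fun τ : T => (τ : L)) '' (hbfin.toFinset : Set T))
  have hPfin : Module.Finite U P := by
    refine Module.Finite.span_of_finite U ?_
    exact (Finset.finite_toSet _).image _
  have hPrank : Module.finrank U P ≤ hbfin.toFinset.card := by
    have h1 := finrank_span_finset_le_card (R := U) (hbfin.toFinset.image fun τ : T => (τ : L))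
    rw [Set.finrank, Finset.coe_image] at h1
    exact h1.trans Finset.card_image_le
  have hmemP : ∀ τ : T, τ ∈ Submodule.span ℂ b → (τ : L) ∈ P := by
    intro τ hτ
    induction hτ using Submodule.span_induction with
    | mem x hx => exact Submodule.subset_span ⟨x, hbfin.mem_toFinset.2 hx, rfl⟩
    | zero => exact zero_mem P
    | add x y _ _ hx hy =>
      have h1 := add_mem hx hy
      exact h1
    | smul c x _ hx =>
      have h1 := P.smul_mem (algebraMap ℂ U c) hx
      have h2 : (algebraMap ℂ U c) • (x : L) = ((c • x : T) : L) := by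
        rw [Algebra.smul_def, Algebra.smul_def, ← IsScalarTower.algebraMap_apply]
        rfl
      rwa [h2] at h1
  have hfP : ∀ l, q * ω l E ∈ P := by
    intro l
    rw [hf l]
    refine Submodule.sum_mem _ fun i _ => ?_
    refine P.smul_mem (βf l i) (hmemP _ ?_)
    rw [hbspan]
    exact Submodule.subset_span (hBmem l i)
  have hli : LinearIndependent U fun l => (⟨q * ω l E, hfP l⟩ : P) := by
    rw [Fintype.linearIndependent_iff]
    intro g hg
    have h1 : ∑ l, g l • (q * ω l E) = 0 := by
      have h2 := congrArg (P.subtype) hg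
      rw [map_sum, map_zero] at h2
      rw [← h2]
      exact Finset.sum_congr rfl fun l _ => rfl
    have h2 : ∑ l, g l • ω l E = 0 := by
      have h3 : q * ∑ l, g l • ω l E = 0 := by
        rw [← h1, Finset.mul_sum]
        exact Finset.sum_congr rfl fun l _ => mul_smul_comm _ _ _
      exact (mul_eq_zero.1 h3).resolve_left hq0
    refine Fintype.linearIndependent_iff.1 hωi g ?_
    funext D
    rw [Finset.sum_apply]
    have hU0 : CharZero U := charZero_of_injective_algebraMap (algebraMap ℂ U).injective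
    have h3 : ∀ l, (g l • ω l) D = (Matrix.of fun i j => D i (t j : L)).det ^ m *
        (g l • ω l E) := by
      intro l
      rw [Pi.smul_apply, mul_smul_comm]
      congr 1
      exact Pool.Agent.Y172.pluri_coord (k := U) hbas hE (hω l).1 D
    rw [Finset.sum_congr rfl fun l _ => h3 l, ← Finset.mul_sum, h2, mul_zero]
    rfl
  have h1 := hli.fintype_card_le_finrank
  rw [Fintype.card_fin] at h1
  exact h1.trans (hPrank.trans hcard)

end

end Pool.Agent.U192.PB
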