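import Pool.Agent.U192.PB.Gauss
import Pool.Agent.W619.Y.Loc
import Pool.Agent.W308.PG.YLOC
import Pool.Agent.Y174.V1
import Pool.Agent.W636.PG.Trans
import Pool.Agent.W602.GT.Der

/-!
Products of two varieties: coordinates, derivations, linear disjointness.
-/

set_option autoImplicit false
set_option linter.overlappingInstances false
set_option linter.unusedSectionVars false

open FF IntermediateField

namespace Pool.Agent.U192.PB

section

variable {L : Type} [Field L] [Algebra ℂ L] {U T : IntermediateField ℂ L} {d n : ℕ}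

open scoped IntermediateField.algebraAdjoinAdjoin in
/-- coordinates of a factor are coordinates of the generic fibre -/
theorem basis_over (hsup : U ⊔ T = ⊤) (hU : Algebra.trdeg ℂ U = d)
    (hL : Algebra.trdeg ℂ L = (d + n : ℕ)) {t : Fin n → T} (ht : IsTranscendenceBasis ℂ t) :
    IsTranscendenceBasis U (fun i => (t i : L)) := by
  classical
  have htr : Algebra.trdeg U L = n := Pool.Agent.Y174.trdeg_LK hU hL
  obtain ⟨W, hW⟩ : ∃ W : IntermediateField U L,
      W = IntermediateField.adjoin U (Set.range fun i => (t i : L)) := ⟨_, rfl⟩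
  have hT : ∀ z : T, IsAlgebraic W (z : L) := by
    intro z
    have h1 : Algebra.IsAlgebraic (IntermediateField.adjoin ℂ (Set.range t)) T :=
      ht.isAlgebraic_field
    obtain ⟨p, hp0, hp⟩ := h1.isAlgebraic z
    -- the inclusion of the small field
    have h2 : ∀ c : IntermediateField.adjoin ℂ (Set.range t), ((c : T) : L) ∈ W := by
      have h3 : (IntermediateField.adjoin ℂ (Set.range t)).map T.val ≤ W.restrictScalars ℂ := by
        rw [IntermediateField.adjoin_map, IntermediateField.adjoin_le_iff]
        rintro _ ⟨_, ⟨i, rfl⟩, rfl⟩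
        change (t i : L) ∈ W
        rw [hW]
        exact subset_adjoin U _ ⟨i, rfl⟩
      intro c
      exact h3 ⟨c, c.2, rfl⟩
    let φ : IntermediateField.adjoin ℂ (Set.range t) →+* W :=
      { toFun := fun c => ⟨((c : T) : L), h2 c⟩
        map_one' := rfl
        map_mul' := fun _ _ => rfl
        map_zero' := rfl
        map_add' := fun _ _ => rfl }
    refine ⟨p.map φ, (Polynomial.map_ne_zero_iff φ.injective).2 hp0, ?_⟩
    rw [Polynomial.aeval_def, Polynomial.eval₂_map]
    have h4 : (algebraMap W L).comp φ = (algebraMap T L).comp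
        (algebraMap (IntermediateField.adjoin ℂ (Set.range t)) T) := rfl
    rw [h4]
    have h5 := congrArg (algebraMap T L) hp
    rw [Polynomial.aeval_def, Polynomial.hom_eval₂, map_zero] at h5
    exact h5
  have htow : IsScalarTower ℂ W L := IsScalarTower.of_algebraMap_eq fun _ => rfl
  have hall : ∀ z : L, IsAlgebraic W z := by
    intro z
    have h1 : (⊤ : IntermediateField ℂ L) ≤ (algebraicClosure W L).restrictScalars ℂ := by
      rw [← hsup, sup_le_iff]
      constructor
      · intro y hy
        rw [mem_restrictScalars, mem_algebraicClosure_iff]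
        have h2 : y ∈ W := W.algebraMap_mem ⟨y, hy⟩
        exact isAlgebraic_algebraMap (⟨y, h2⟩ : W)
      · intro y hy
        rw [mem_restrictScalars, mem_algebraicClosure_iff]
        exact hT ⟨y, hy⟩
    have h2 := h1 (by trivial : z ∈ (⊤ : IntermediateField ℂ L))
    rwa [mem_restrictScalars, mem_algebraicClosure_iff] at h2
  have halg : Algebra.IsAlgebraic (Algebra.adjoin U (Set.range fun i => (t i : L))) L := by
    refine ⟨fun z => ?_⟩
    subst hW
    exact (IsFractionRing.isAlgebraic_iff (Algebra.adjoin U (Set.range fun i => (t i : L)))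
      (IntermediateField.adjoin U (Set.range fun i => (t i : L))) L).2 (hall z)
  refine Algebra.IsAlgebraic.isTranscendenceBasis_of_lift_le_trdeg_of_finite U _ ?_
  rw [htr]
  simp

/-- derivations along a factor -/
theorem exists_der_along (hsup : U ⊔ T = ⊤) (hU : Algebra.trdeg ℂ U = d)
    (hL : Algebra.trdeg ℂ L = (d + n : ℕ)) {t : Fin n → T} (ht : IsTranscendenceBasis ℂ t) :
    ∃ (E : Fin n → Derivation U L L) (E' : Fin n → Derivation ℂ T T),
      (∀ i j, E i (t j : L) = if i = j then 1 else 0) ∧
      (∀ i j, E' i (t j) = if i = j then 1 else 0) ∧ ∀ i (z : T), E i (z : L) = (E' i z : L) := by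
  obtain ⟨E, hE⟩ := Pool.Agent.W636.PG.exists_duals U L n _ (basis_over hsup hU hL ht)
  obtain ⟨E', hE'⟩ := Pool.Agent.W636.PG.exists_duals ℂ T n _ ht
  refine ⟨E, E', hE, hE', fun i z => ?_⟩
  have h1 := Pool.Agent.W308.PG.YLOC.expand (k := ℂ) (K := T) (L := L) t E' ht hE'
    ((E i).restrictScalars ℂ) z
  have h2 : ((E i).restrictScalars ℂ) (algebraMap T L z) = E i (z : L) := rfl
  rw [h2] at h1
  rw [h1, Finset.sum_eq_single i]
  · change algebraMap T L (E' i z) * E i (t i : L) = _
    rw [hE, if_pos rfl, mul_one]
    rfl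
  · intro c _ hc
    change algebraMap T L (E' c z) * E i (t c : L) = 0
    rw [hE, if_neg (Ne.symm hc), mul_zero]
  · intro h
    exact absurd (Finset.mem_univ i) h

theorem const_of_ders {t : Fin n → T} (ht : IsTranscendenceBasis ℂ t)
    {E' : Fin n → Derivation ℂ T T} (hE' : ∀ i j, E' i (t j) = if i = j then 1 else 0) {z : T}
    (hz : ∀ i, E' i z = 0) : ∃ c : ℂ, z = algebraMap ℂ T c := by
  apply Pool.Agent.W602.GT.const_of_algebraic
  by_contra htr
  obtain ⟨D, hD⟩ := Pool.Agent.W619.Y.exists_der (k := ℂ) (L := T) (u := z) htr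
  have h1 := Pool.Agent.W308.PG.YLOC.expandK (k := ℂ) (K := T) t E' ht hE' D
  have h2 : D z = 0 := by
    rw [h1, Pool.Agent.W308.PG.YLOC.der_sum_apply]
    refine Finset.sum_eq_zero fun l _ => ?_
    change D (t l) * E' l z = 0
    rw [hz, mul_zero]
  rw [hD] at h2
  exact one_ne_zero h2

/-- **Linear disjointness** of the function fields of the factors. -/
theorem indep_over (hsup : U ⊔ T = ⊤) (hU : Algebra.trdeg ℂ U = d) (hT : Algebra.trdeg ℂ T = n)
    (hL : Algebra.trdeg ℂ L = (d + n : ℕ)) {ι : Type*} {u : ι → U} (hu : LinearIndependent ℂ u) :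
    LinearIndependent T fun i => (u i : L) := by
  classical
  obtain ⟨t, ht⟩ := Pool.Agent.W636.PG.exists_basis ℂ T n hT
  obtain ⟨E, E', hE, hE', hEE⟩ := exists_der_along hsup hU hL ht
  -- induction on the number of terms
  have key : ∀ (N : ℕ) (s : Finset ι), s.card = N → ∀ c : ι → T,
      ∑ i ∈ s, c i • (u i : L) = 0 → ∀ i ∈ s, c i = 0 := by
    intro N
    induction N with
    | zero =>
      intro s hs c _ i hi
      rw [Finset.card_eq_zero.1 hs] at hi
      exact absurd hi (Finset.notMem_empty i)
    | succ N ih =>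
      intro s hs c hc
      by_contra hcon
      push Not at hcon
      obtain ⟨i0, hi0, hne⟩ := hcon
      -- normalize
      obtain ⟨b, hb⟩ : ∃ b : ι → T, ∀ i, b i = c i / c i0 := ⟨_, fun _ => rfl⟩
      have hb0 : b i0 = 1 := by rw [hb, div_self hne]
      have hsum : ∑ i ∈ s, b i • (u i : L) = 0 := by
        have h1 : ∑ i ∈ s, b i • (u i : L) = (c i0)⁻¹ • ∑ i ∈ s, c i • (u i : L) := by
          rw [Finset.smul_sum]
          refine Finset.sum_congr rfl fun i _ => ?_
          rw [hb, smul_smul, div_eq_mul_inv, mul_comm]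
        rw [h1, hc, smul_zero]
      have hder : ∀ l, ∀ i ∈ s, E' l (b i) = 0 := by
        intro l
        have h1 : ∑ i ∈ s, E' l (b i) • (u i : L) = 0 := by
          have h2 := congrArg (E l) hsum
          rw [map_sum, map_zero] at h2
          rw [← h2]
          refine Finset.sum_congr rfl fun i _ => ?_
          rw [Algebra.smul_def, Algebra.smul_def, (E l).leibniz]
          have h3 : E l (u i : L) = 0 := (E l).map_algebraMap (u i)
          have h4 : E l (algebraMap T L (b i)) = algebraMap T L (E' l (b i)) := hEE l (b i)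
          rw [h3, h4, smul_zero, zero_add, smul_eq_mul, mul_comm]
        have h2 : ∑ i ∈ s.erase i0, E' l (b i) • (u i : L) = 0 := by
          rw [← Finset.add_sum_erase _ _ hi0, hb0] at h1
          have h3 : E' l 1 = 0 := (E' l).map_one_eq_zero
          rw [h3, zero_smul, zero_add] at h1
          exact h1
        have h3 := ih (s.erase i0) (by rw [Finset.card_erase_of_mem hi0, hs]; rfl)
          (fun i => E' l (b i)) h2
        intro i hi
        by_cases h4 : i = i0
        · rw [h4, hb0]
          exact (E' l).map_one_eq_zero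
        · exact h3 i (Finset.mem_erase.2 ⟨h4, hi⟩)
      have hconst : ∀ i, ∃ a : ℂ, i ∈ s → b i = algebraMap ℂ T a := by
        intro i
        by_cases hi : i ∈ s
        · obtain ⟨a, ha⟩ := const_of_ders ht hE' (z := b i) fun l => hder l i hi
          exact ⟨a, fun _ => ha⟩
        · exact ⟨0, fun h => absurd h hi⟩
      choose a ha using hconst
      have h5 : ∑ i ∈ s, a i • u i = 0 := by
        have h6 : algebraMap U L (∑ i ∈ s, a i • u i) = 0 := by
          rw [map_sum, ← hsum]
          refine Finset.sum_congr rfl fun i hi => ?_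
          rw [ha i hi, Algebra.smul_def, map_mul, Algebra.smul_def,
            ← IsScalarTower.algebraMap_apply, ← IsScalarTower.algebraMap_apply]
          rfl
        exact (map_eq_zero _).1 h6
      have h6 := linearIndependent_iff'.1 hu s a h5 i0 hi0
      have h7 := ha i0 hi0
      rw [hb0, h6, map_zero] at h7
      exact one_ne_zero h7
  rw [linearIndependent_iff']
  intro s c hc i hi
  exact key _ s rfl c hc i hi

theorem lin_of (hsup : U ⊔ T = ⊤) (hU : Algebra.trdeg ℂ U = d) (hT : Algebra.trdeg ℂ T = n)
    (hL : Algebra.trdeg ℂ L = (d + n : ℕ)) : Lin T U := by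
  refine ⟨?_, by rw [sup_comm]; exact hsup⟩
  refine IntermediateField.LinearDisjoint.of_basis_right (Module.Basis.ofVectorSpace ℂ U) ?_
  exact indep_over hsup hU hT hL (Module.Basis.ofVectorSpace ℂ U).linearIndependent

end

end Pool.Agent.U192.PB
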