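import Pool.Agent.U192.PB.Dis
import Pool.Agent.Y172.Grow
import Pool.Agent.W619.PQ.Approx
import Pool.Agent.W602.GT.Defs

/-!
Places over which an extension of function fields is unramified since it comes from an extension of
subfields on which the place is trivial.
-/

set_option autoImplicit false
set_option linter.overlappingInstances false
set_option linter.unusedSectionVars false

open FF Pool.Agent.W603.LV
open Pool.Agent.W602.GT (DerReg)

namespace Pool.Agent.U192.PB

section

variable {k K L N : Type} [Field k] [CharZero k] [Field K] [Field L] [Field N] [Algebra k K]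
  [Algebra k L] [Algebra K L] [IsScalarTower k K L] [FiniteDimensional K L] [Algebra N K]
  [Algebra N L] [IsScalarTower N K L]

theorem inv_integral {δ : ℕ} {M : Matrix (Fin δ) (Fin δ) K} (hM : ∀ i j, IsIntegral N (M i j))
    (i j : Fin δ) : IsIntegral N (M⁻¹ i j) := by
  classical
  have h1 : IsIntegral N M.det⁻¹ := ((IsIntegral.det hM).isAlgebraic.inv).isIntegral
  have h2 : IsIntegral N (M.adjugate i j) := by
    rw [Matrix.adjugate_apply]
    refine IsIntegral.det fun a b => ?_
    rw [Matrix.updateRow_apply]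
    split_ifs
    · rw [Pi.single_apply]
      split_ifs
      · exact isIntegral_one
      · exact isIntegral_zero
    · exact hM a b
  rw [Matrix.inv_def, Matrix.smul_apply, Ring.inverse_eq_inv', smul_eq_mul]
  exact h1.mul h2

theorem over_reg_alg {P : Place k K} {Q : Place k L} {e : ℕ} (h : Over Q P e)
    (hP : ∀ c : N, P.Reg (algebraMap N K c)) {z : L} (hz : IsIntegral N z) : Q.Reg z := by
  refine Q.reg_of_isIntegral (fun c => ?_) hz
  rw [IsScalarTower.algebraMap_apply N K L]
  exact h.reg.2 (hP c)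

/-- the coordinates of regular functions are regular -/
theorem coord_reg {δ : ℕ} (b : Module.Basis (Fin δ) K L) (hb : ∀ j, IsIntegral N (b j))
    {P : Place k K} (hP : ∀ c : N, P.Reg (algebraMap N K c)) {f : L}
    (hf : ∀ (Q : Place k L) (e : ℕ), Over Q P e → Ge Q 0 f) (j : Fin δ) :
    P.Reg (b.equivFun f j) := by
  classical
  have hcK : CharZero K := charZero_of_injective_algebraMap (algebraMap k K).injective
  obtain ⟨M, hM⟩ : ∃ M, M = Algebra.traceMatrix K b := ⟨_, rfl⟩
  have hMi : ∀ i j, IsIntegral N (M i j) := by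
    intro i j
    rw [hM, Algebra.traceMatrix_apply, Algebra.traceForm_apply]
    exact Algebra.isIntegral_trace ((hb i).mul (hb j))
  have hdet : IsUnit M.det := by
    have h1 := Algebra.discr_isUnit_of_basis K b
    rw [Algebra.discr_def] at h1
    rw [hM]
    exact h1
  have h1 := Algebra.traceMatrix_of_basis_mulVec b f
  rw [← hM] at h1
  have h2 : b.equivFun f = M⁻¹.mulVec fun i => Algebra.trace K L (f * b i) := by
    rw [← h1, Matrix.mulVec_mulVec, Matrix.nonsing_inv_mul _ hdet, Matrix.one_mulVec]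
  rw [h2]
  change P.Reg (∑ i, M⁻¹ j i * Algebra.trace K L (f * b i))
  have h3 : Ge P 0 (∑ i, M⁻¹ j i * Algebra.trace K L (f * b i)) := by
    refine Ge.sum _ _ fun i _ => ?_
    have h4 : P.Reg (M⁻¹ j i) := P.reg_of_isIntegral hP (inv_integral hMi j i)
    have h5 : P.Reg (Algebra.trace K L (f * b i)) := by
      refine Pool.Agent.Y172.trace_reg P _ fun Q e hQ => ?_
      have h6 := (hf Q e hQ).mul (over_reg_alg hQ hP (hb i) : Ge Q 0 (b i))
      rwa [zero_add] at h6
    have h6 := (show Ge P 0 (M⁻¹ j i) from h4).mul (show Ge P 0 _ from h5)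
    rwa [zero_add] at h6
  exact h3

/-- **Regular vector fields.** -/
theorem der_reg {δ : ℕ} (b : Module.Basis (Fin δ) K L) (hb : ∀ j, IsIntegral N (b j))
    {P : Place k K} (hP : ∀ c : N, P.Reg (algebraMap N K c)) {D : Derivation k L L}
    (hDK : ∀ z : K, P.Reg z → ∃ z' : K, D (algebraMap K L z) = algebraMap K L z' ∧ P.Reg z')
    (hDb : ∀ j, IsIntegral N (D (b j))) {Q : Place k L} {e : ℕ} (hQ : Over Q P e) :
    DerReg Q D := by
  classical
  have hcK : CharZero K := charZero_of_injective_algebraMap (algebraMap k K).injective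
  have hfin := Pool.Agent.Y172.finite_over (K' := L) P
  -- functions which are regular at all places
  have key : ∀ w : L, (∀ (Q' : Place k L) (e' : ℕ), Over Q' P e' → Ge Q' 0 w) → Ge Q 0 (D w) := by
    intro w hw
    have h1 : w = ∑ j, b.equivFun w j • b j := (b.sum_equivFun w).symm
    rw [h1, map_sum]
    refine Ge.sum _ _ fun j _ => ?_
    obtain ⟨z', hz', hz''⟩ := hDK _ (coord_reg b hb hP hw j)
    rw [Algebra.smul_def, D.leibniz, smul_eq_mul, smul_eq_mul, hz']
    have h2 : Ge Q 0 (algebraMap K L (b.equivFun w j)) := hQ.reg.2 (coord_reg b hb hP hw j)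
    have h3 : Ge Q 0 (algebraMap K L z') := hQ.reg.2 hz''
    have h4 : Ge Q 0 (b j) := over_reg_alg hQ hP (hb j)
    have h5 : Ge Q 0 (D (b j)) := over_reg_alg hQ hP (hDb j)
    have h6 := h2.mul h5
    have h7 := h4.mul h3
    rw [zero_add] at h6 h7
    exact h6.add h7
  intro z hz
  by_cases hz0 : z = 0
  · rw [hz0, map_zero]
    exact Or.inl rfl
  obtain ⟨S, hS⟩ : ∃ S : Finset (Place k L), S = hfin.toFinset.erase Q := ⟨_, rfl⟩
  obtain ⟨A, hA⟩ : ∃ A : ℤ, 1 ≤ A ∧ ∀ Q' ∈ S, -A ≤ Q'.ord z := by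
    refine ⟨1 + ∑ Q' ∈ S, |Q'.ord z|, ?_, fun Q' hQ' => ?_⟩
    · have : 0 ≤ ∑ Q' ∈ S, |Q'.ord z| := Finset.sum_nonneg fun _ _ => abs_nonneg _
      omega
    · have h1 := Finset.single_le_sum (f := fun Q' : Place k L => |Q'.ord z|)
        (fun _ _ => abs_nonneg _) hQ'
      have h2 := neg_abs_le (Q'.ord z)
      linarith
  obtain ⟨c, hc1, hc2⟩ := Pool.Agent.W619.PQ.approx_one S Q (by
    rw [hS]
    exact Finset.notMem_erase _ _) 1 A
  have hcQ : c ≠ 0 ∧ Q.ord c = 0 := by
    by_cases h0 : c - 1 = 0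
    · have h1 : c = 1 := sub_eq_zero.1 h0
      rw [h1]
      exact ⟨one_ne_zero, Q.ord_one⟩
    · have h1 := hc1.resolve_left h0
      have h2 := Q.ord_add_eq (f := 1) (g := c - 1) one_ne_zero h0 (by rw [Q.ord_one]; omega)
      rw [add_sub_cancel, Q.ord_one] at h2
      exact h2
  have hcall : ∀ (Q' : Place k L) (e' : ℕ), Over Q' P e' → Ge Q' 0 c ∧ Ge Q' 0 (c * z) := by
    intro Q' e' hQ'
    by_cases h : Q' = Q
    · subst h
      have h1 : Ge Q' 0 c := Or.inr hcQ.2.ge
      have h2 := h1.mul (show Ge Q' 0 z from hz)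
      rw [zero_add] at h2
      exact ⟨h1, h2⟩
    · have hmem : Q' ∈ S := by
        rw [hS, Finset.mem_erase, Set.Finite.mem_toFinset]
        exact ⟨h, e', hQ'⟩
      have h1 := hc2 Q' hmem
      refine ⟨h1.mono (by omega), ?_⟩
      have h2 := h1.mul (show Ge Q' (-A) z from Or.inr (hA.2 Q' hmem))
      rwa [add_neg_cancel] at h2
  have h1 := key c fun Q' e' h => (hcall Q' e' h).1
  have h2 := key (c * z) fun Q' e' h => (hcall Q' e' h).2
  have h3 : D z = c⁻¹ * (D (c * z) + -(z * D c)) := by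
    rw [D.leibniz, smul_eq_mul, smul_eq_mul]
    have := hcQ.1
    field_simp
    ring
  have h4 : Ge Q 0 c⁻¹ := Or.inr (by rw [Q.ord_inv, hcQ.2, neg_zero])
  have h5 := (show Ge Q 0 z from hz).mul h1
  rw [zero_add] at h5
  have h6 := h4.mul (h2.add h5.neg)
  rw [zero_add] at h6
  rw [h3]
  exact h6

end

end Pool.Agent.U192.PB
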