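import Pool.Agent.U192.PB.Adic

/-!
The Gauss extension of a place of a factor as a place of the product over the other factor.
-/

set_option autoImplicit false
set_option linter.overlappingInstances false
set_option linter.unusedSectionVars false

open FF IntermediateField Pool.Agent.W619.PQ Pool.Agent.W619.TW Pool.Agent.W603.LV
open Pool.Agent.W602.GT (Divisorial DerReg)

namespace Pool.Agent.U192.PB

section

variable {k L : Type} [Field k] [Field L] [Algebra k L] {M F : IntermediateField k L}

/-- Expansion of the elements of the ring. -/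
theorem exists_expand {z : L} (hz : z ∈ RR M F) :
    ∃ (r : ℕ) (β : Fin r → F) (μ : Fin r → M), LinearIndependent k β ∧
      z = ∑ i, (β i : L) * (μ i : L) := by
  classical
  let b := Module.Basis.ofVectorSpace k F
  have h := RR.mem_span hz
  have h1 : ∃ f : _ →₀ M, z = Finsupp.linearCombination M (fun i => (b i : L)) f := by
    clear hz
    induction h using Submodule.closure_induction with
    | zero => exact ⟨0, by rw [map_zero]⟩
    | add x y _ _ hx hy =>
      obtain ⟨f, rfl⟩ := hx
      obtain ⟨g, rfl⟩ := hy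
      exact ⟨f + g, by rw [map_add]⟩
    | smul_mem c x h =>
      refine ⟨(b.repr c).mapRange (fun a => a • (⟨x, h⟩ : M)) (zero_smul _ _), ?_⟩
      have h2 := mul_expand b c (⟨x, h⟩ : M)
      rw [← h2, Algebra.smul_def]
      rfl
  obtain ⟨f, rfl⟩ := h1
  let e := f.support.equivFin
  refine ⟨f.support.card, fun j => b (e.symm j), fun j => f (e.symm j), ?_, ?_⟩
  · exact b.linearIndependent.comp _ (Subtype.val_injective.comp e.symm.injective)
  · rw [Finsupp.linearCombination_apply, Finsupp.sum, ← Finset.sum_coe_sort,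
      ← Equiv.sum_comp e.symm]
    refine Finset.sum_congr rfl fun j _ => ?_
    rw [Algebra.smul_def, mul_comm]
    rfl

theorem exists_den (h : Lin M F) (S : Finset L) :
    ∃ q ∈ RR M F, q ≠ 0 ∧ ∀ s ∈ S, q * s ∈ RR M F := by
  classical
  induction S using Finset.induction_on with
  | empty => exact ⟨1, one_mem _, one_ne_zero, fun s hs => absurd hs (Finset.notMem_empty s)⟩
  | insert a S _ ih =>
    obtain ⟨q, hq, hq0, hS⟩ := ih
    obtain ⟨x, hx, y, hy, hy0, rfl⟩ := h.frac a
    refine ⟨q * y, mul_mem hq hy, mul_ne_zero hq0 hy0, fun s hs => ?_⟩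
    rcases Finset.mem_insert.1 hs with rfl | hs
    · have h1 : q * y * (x / y) = q * x := by field_simp
      rw [h1]
      exact mul_mem hq hx
    · have h1 : q * y * s = q * s * y := by ring
      rw [h1]
      exact mul_mem (hS s hs) hy

end

section

variable {k L : Type} [Field k] [Field L] [Algebra k L] [CharZero k] [IsAlgClosed k]
  {M F : IntermediateField k L} {u : Place k M}

/-- The Gauss extension of a place of a factor, as a place over the other factor. -/
noncomputable def UF (h : Lin M F) (u : Place k M) : Place F L where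
  ord := (UU h u).ord
  ord_zero := (UU h u).ord_zero
  ord_mul := (UU h u).ord_mul
  ord_add := (UU h u).ord_add
  ord_const := fun {c} _ => UU_F h u c
  surj := (UU h u).surj

theorem UF_ord (h : Lin M F) (u : Place k M) (z : L) : (UF h u).ord z = (UU h u).ord z := rfl

theorem UF_ge {h : Lin M F} {u : Place k M} {n : ℤ} {z : L} :
    Ge (UF h u) n z ↔ Ge (UU h u) n z := Iff.rfl

/-- coefficients of a polynomial -/
theorem poly_expand {σ ι : Type*} (b : Module.Basis ι k F) (P : MvPolynomial σ F) :
    ∃ G : ι →₀ MvPolynomial σ k,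
      P = G.sum fun i g => MvPolynomial.C (b i) * MvPolynomial.map (algebraMap k F) g := by
  classical
  have hz : ∀ i, MvPolynomial.C (b i) * MvPolynomial.map (algebraMap k F)
      (0 : MvPolynomial σ k) = 0 := fun i => by rw [map_zero, mul_zero]
  induction P using MvPolynomial.induction_on with
  | C c =>
    refine ⟨(b.repr c).mapRange (fun a => MvPolynomial.C a) (map_zero _), ?_⟩
    rw [Finsupp.sum_mapRange_index hz]
    have h1 : c = (b.repr c).sum fun i a => a • b i := by
      conv_lhs => rw [← b.linearCombination_repr c, Finsupp.linearCombination_apply]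
    conv_lhs => rw [h1]
    rw [Finsupp.sum, Finsupp.sum, map_sum]
    refine Finset.sum_congr rfl fun i _ => ?_
    rw [MvPolynomial.map_C, ← map_mul, Algebra.smul_def, mul_comm]
  | add p q hp hq =>
    obtain ⟨f, hf⟩ := hp
    obtain ⟨g, hg⟩ := hq
    refine ⟨f + g, ?_⟩
    rw [Finsupp.sum_add_index' hz (fun i x y => by rw [map_add, mul_add]), ← hf, ← hg]
  | mul_X p j hp =>
    obtain ⟨f, hf⟩ := hp
    refine ⟨f.mapRange (fun g => g * MvPolynomial.X j) (zero_mul _), ?_⟩
    rw [Finsupp.sum_mapRange_index hz]
    conv_lhs => rw [hf]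
    rw [Finsupp.sum, Finsupp.sum, Finset.sum_mul]
    refine Finset.sum_congr rfl fun i _ => ?_
    rw [map_mul, MvPolynomial.map_X, mul_assoc]

theorem UF_div (h : Lin M F) {n : ℕ} (hu : Divisorial n u) : Divisorial n (UF h u) := by
  classical
  obtain ⟨w, hw⟩ := hu
  refine ⟨fun i => (w i : L), fun P hP => ?_⟩
  let b := Module.Basis.ofVectorSpace k F
  obtain ⟨G, hG⟩ := poly_expand b P
  have hz : MvPolynomial.aeval (fun i => (w i : L)) P =
      Finsupp.linearCombination M (fun i => (b i : L))
        (G.mapRange (fun g => MvPolynomial.aeval w g) (map_zero _)) := by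
    conv_lhs => rw [hG]
    rw [Finsupp.linearCombination_apply, Finsupp.sum_mapRange_index
      (h := fun i (a : M) => a • (b i : L)) (fun i => zero_smul M (b i : L)),
      Finsupp.sum, Finsupp.sum, map_sum]
    refine Finset.sum_congr rfl fun i _ => ?_
    rw [map_mul, MvPolynomial.aeval_C, MvPolynomial.aeval_map_algebraMap, Algebra.smul_def,
      mul_comm]
    congr 1
    exact MvPolynomial.aeval_algebraMap_apply L w (G i)
  have hG0 : G ≠ 0 := by
    rintro rfl
    apply hP
    rw [hG, Finsupp.sum_zero_index]
  obtain ⟨i0, hi0⟩ := Finsupp.ne_iff.1 hG0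
  have hi0' : G i0 ≠ 0 := hi0
  obtain ⟨h1, h2⟩ := hw (G i0) hi0'
  have hne : MvPolynomial.aeval (fun i => (w i : L)) P ≠ 0 := by
    rw [hz]
    intro hc
    have hinj : Function.Injective (Finsupp.linearCombination M (fun i => (b i : L))) :=
      linDisj' h b b.linearIndependent
    have h3 := hinj (hc.trans (map_zero _).symm)
    have h4 := DFunLike.congr_fun h3 i0
    rw [Finsupp.mapRange_apply] at h4
    exact h1 h4
  refine ⟨hne, ?_⟩
  have hGG : MvPolynomial.aeval (fun i => (w i : L)) P ∈ GG F u 0 := by
    rw [hz]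
    by_contra hcon
    obtain ⟨i, hi⟩ := exists_low (fun i => b i) _ hcon
    apply hi
    rw [Finsupp.mapRange_apply]
    by_cases h0 : G i = 0
    · left
      rw [h0, map_zero]
    · right
      exact (hw (G i) h0).2.ge
  have h3 := (GG_UU h u hGG).resolve_left hne
  rw [UF_ord]
  refine le_antisymm ?_ h3
  by_contra hcon
  push Not at hcon
  have h4 : Ge (UU h u) 1 (MvPolynomial.aeval (fun i => (w i : L)) P) := Or.inr (by omega)
  have h5 := UU_GG h u (GG_RR hGG) h4
  rw [hz] at h5
  have h6 := GG_coef h b _ h5 i0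
  rw [Finsupp.mapRange_apply] at h6
  have h7 := h6.resolve_left h1
  omega

theorem UF_pres (h : Lin M F) (u : Place k M) (D : Derivation F L L)
    (hM : ∀ μ : M, u.Reg μ → ∃ μ' : M, D (μ : L) = (μ' : L) ∧ u.Reg μ') :
    DerReg (UF h u) D := fun f hf =>
  UU_pres h u (D.restrictScalars k) hM (fun β => ⟨0, D.map_algebraMap β⟩) f hf

/-- orders of sums -/
theorem UU_low (h : Lin M F) (u : Place k M) {r : ℕ} (β : Fin r → F) (μ : Fin r → M)
    (h0 : ∑ i, (β i : L) * (μ i : L) ≠ 0) :
    ∃ i, μ i ≠ 0 ∧ u.ord (μ i) ≤ (UU h u).ord (∑ i, (β i : L) * (μ i : L)) := by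
  classical
  by_contra hcon
  push Not at hcon
  have h1 : Ge (UU h u) ((UU h u).ord (∑ i, (β i : L) * (μ i : L)) + 1)
      (∑ i, (β i : L) * (μ i : L)) := by
    refine Ge.sum _ _ fun i _ => ?_
    by_cases h2 : μ i = 0
    · left
      rw [h2]
      simp
    · have h3 := hcon i h2
      have h4 : Ge (UU h u) ((UU h u).ord (∑ i, (β i : L) * (μ i : L)) + 1) (μ i : L) := by
        right
        rw [UU_M]
        omega
      have h5 : Ge (UU h u) 0 (β i : L) := by
        by_cases h6 : β i = 0
        · left
          rw [h6]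
          rfl
        · right
          rw [UU_F]
      have h6 := h5.mul h4
      rwa [zero_add] at h6
  have h2 := h1.resolve_left h0
  omega

end

end Pool.Agent.U192.PB
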