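import Pool.Agent.U192.PB.Prod
import Pool.Agent.R882.CovGT

/-!
Varieties dominated by a product of two varieties: the main theorem.
-/

set_option autoImplicit false
set_option linter.overlappingInstances false
set_option linter.unusedSectionVars false

open FF IntermediateField Pool.Agent.W619.PQ Pool.Agent.W603.LV Pool.Agent.Y172
open Pool.Agent.W619.TW (NumNeg NumLe RR)
open Pool.Agent.W602.GT (Divisorial DerReg IsPluri KodGe)

namespace Pool.Agent.U192.PB

theorem indep_pow {L : Type} [Field L] [Algebra ℂ L] {a N : ℕ} (hN : 0 < N) {x : Fin a → L}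
    (h : AlgebraicIndependent ℂ x) : AlgebraicIndependent ℂ fun i => x i ^ N := by
  have h1 : (MvPolynomial.aeval fun i => x i ^ N : MvPolynomial (Fin a) ℂ →ₐ[ℂ] L) =
      (MvPolynomial.aeval x).comp (MvPolynomial.expand N) := by
    rw [MvPolynomial.aeval_comp_expand]
    rfl
  unfold AlgebraicIndependent
  rw [h1, AlgHom.coe_comp]
  exact Function.Injective.comp (show Function.Injective (MvPolynomial.aeval x) from h)
    (MvPolynomial.expand_injective hN)

section

variable {L : Type} [Field L] [Algebra ℂ L] {U T : IntermediateField ℂ L} {d n : ℕ}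

/-- A factor is algebraically closed in the product. -/
theorem closed_in [Algebra.EssFiniteType ℂ L] (hsup : U ⊔ T = ⊤) (hU : Algebra.trdeg ℂ U = d)
    (hT : Algebra.trdeg ℂ T = n) (hL : Algebra.trdeg ℂ L = (d + n : ℕ)) {z : L}
    (hz : IsAlgebraic U z) : z ∈ U := by
  classical
  have h := lin_of hsup hU hT hL
  obtain ⟨t, ht⟩ := Pool.Agent.W636.PG.exists_basis ℂ T n hT
  obtain ⟨E, E', hE, hE', hEE⟩ := exists_der_along hsup hU hL ht
  have hring : z ∈ RR T U := by
    refine mem_ring hsup hU hL ht hE hEE fun Q _ _ _ => ?_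
    exact Q.reg_of_isIntegral (A := U) Q.reg_const hz.isIntegral
  obtain ⟨r, β, μ, hβ, e⟩ := exists_expand hring
  have hEz : ∀ l, E l z = 0 := by
    intro l
    exact Pool.Agent.R882.WR.der_alg ((E l).restrictScalars ℂ)
      (fun c hc => (E l).map_algebraMap (⟨c, hc⟩ : U)) hz
  have hμ : ∀ i, ∃ c : ℂ, μ i = algebraMap ℂ T c := by
    intro i
    refine const_of_ders ht hE' fun l => ?_
    have h1 : ∑ i, (β i : L) * ((E' l (μ i) : T) : L) = 0 := by
      rw [← hEz l, e, map_sum]
      refine Finset.sum_congr rfl fun i _ => ?_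
      rw [(E l).leibniz, hEE, smul_eq_mul, smul_eq_mul]
      have h2 : E l (β i : L) = 0 := (E l).map_algebraMap (β i)
      rw [h2, mul_zero, add_zero]
    exact Fintype.linearIndependent_iff.1 (linDisj' h β hβ) (fun i => E' l (μ i)) (by
      rw [← h1]
      refine Finset.sum_congr rfl fun i' _ => ?_
      rw [Algebra.smul_def, mul_comm]
      rfl) i
  rw [e]
  refine sum_mem fun i _ => mul_mem (β i).2 ?_
  obtain ⟨c, hc⟩ := hμ i
  rw [hc]
  exact U.algebraMap_mem c

/-- the orders of the poles of functions on a factor -/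
theorem pol_over {X : Finset U} {Q : Place ℂ L} {P : Place ℂ U} {e : ℕ} (h : Over Q P e) :
    (Pool.Agent.U192.NM.pol (X.map (Function.Embedding.subtype fun z => z ∈ U)) Q) =
      e * Pool.Agent.U192.NM.pol X P := by
  unfold Pool.Agent.U192.NM.pol
  rw [Finset.sup_map, Finset.comp_sup_eq_sup_comp (fun a : ℕ => e * a)
    (fun a b => (Nat.mul_max_mul_left e a b).symm) (Nat.mul_zero e)]
  congr 1
  funext z
  change (-Q.ord (z : L)).toNat = e * (-P.ord z).toNat
  have h1 : Q.ord (z : L) = e * P.ord z := h.2 z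
  rw [h1]
  rcases le_total (P.ord z) 0 with h2 | h2
  · have h3 : (-P.ord z).toNat = -P.ord z := Int.toNat_of_nonneg (by omega)
    have h4 : 0 ≤ -((e : ℤ) * P.ord z) := by
      have := mul_nonpos_of_nonneg_of_nonpos (Int.natCast_nonneg e) h2
      omega
    have h5 := Int.toNat_of_nonneg h4
    have h6 : ((-((e : ℤ) * P.ord z)).toNat : ℤ) = ((e * (-P.ord z).toNat : ℕ) : ℤ) := by
      rw [h5]
      push_cast
      rw [h3]
      ring
    exact_mod_cast h6
  · have h3 : (-P.ord z).toNat = 0 := Int.toNat_of_nonpos (by omega)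
    have h4 : (-((e : ℤ) * P.ord z)).toNat = 0 := by
      apply Int.toNat_of_nonpos
      have := mul_nonneg (Int.natCast_nonneg e) h2
      omega
    rw [h3, h4, mul_zero]

end

section

variable {K L : Type} [Field K] [Field L] [Algebra ℂ K] [Algebra ℂ L] [Algebra K L]
  [IsScalarTower ℂ K L] [FiniteDimensional K L] (U T : IntermediateField ℂ L)
  [Algebra.EssFiniteType ℂ U] [Algebra.EssFiniteType ℂ T]

/-- The functions on the first factor as functions on the product. -/
def up {κ : ℕ} (X : Fin κ → Finset U) (i : Fin κ) : Finset L :=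
  (X i).map (Function.Embedding.subtype fun z => z ∈ U)

/-- **Abundance for varieties dominated by products.** -/
theorem abu_prod {d r m : ℕ} (hm : 1 ≤ m) (hsup : U ⊔ T = ⊤) (hU : Algebra.trdeg ℂ U = d)
    (hT : Algebra.trdeg ℂ T = (r + 1 : ℕ)) (hL : Algebra.trdeg ℂ L = (d + (r + 1) : ℕ))
    (hYn : NumLe ℂ T (r + 1) (fun _ => False) 0) (hYk : KodGe ℂ T (r + 1) (fun _ => False) 0)
    {κ : ℕ} (X : Fin κ → Finset U) (hX : IntermediateField.adjoin ℂ (⋃ i, (X i : Set U)) = ⊤)
    {α : Fin (d + 1) → (Fin d → Derivation ℂ U U) → U} (hα : ∀ j, IsPluri m (α j))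
    (hpos : ∀ j, ∀ P : Place ℂ U, Divisorial d P → ∀ G : Fin d → Derivation ℂ U U,
      (∀ i, DerReg P (G i)) → α j G ≠ 0 →
      ∑ i, 2 * m * ((Pool.Agent.U192.NM.dg K (up U X) i : ℤ) - 1) *
        Pool.Agent.U192.NM.pol (X i) P ≤ P.ord (α j G))
    {G0 : Fin d → Derivation ℂ U U} (hG0 : α 0 G0 ≠ 0)
    (hind : AlgebraicIndependent ℂ fun j : Fin d => α j.succ G0 / α 0 G0) :
    [¬ NumNeg ℂ K (d + (r + 1)) (fun _ => False), KodGe ℂ K (d + (r + 1)) (fun _ => False) 0,
      KodGe ℂ K (d + (r + 1)) (fun _ => False) d].TFAE ∧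
    NumLe ℂ K (d + (r + 1)) (fun _ => False) d := by
  classical
  have hessL : Algebra.EssFiniteType ℂ L := by
    have h1 : Algebra.EssFiniteType ℂ ↥(U ⊔ T) := essFiniteType_iff.2
      (fg_sup (essFiniteType_iff.1 inferInstance) (essFiniteType_iff.1 inferInstance))
    rw [hsup] at h1
    exact (Algebra.EssFiniteType.iff_of_algEquiv
      (IntermediateField.topEquiv (F := ℂ) (E := L))).1 h1
  have hessK : Algebra.EssFiniteType ℂ K := Pool.Agent.TH466.QG.ess_below (K := L)
  obtain ⟨N, hN, ω, hω, D1, hD1, -⟩ := hYk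
  obtain ⟨x, hx⟩ := Pool.Agent.W636.PG.exists_basis ℂ U d hU
  obtain ⟨t, ht⟩ := Pool.Agent.W636.PG.exists_basis ℂ T (r + 1) hT
  obtain ⟨Ex, hEx⟩ := Pool.Agent.W636.PG.exists_duals ℂ U d x hx
  obtain ⟨Et, hEt⟩ := Pool.Agent.W636.PG.exists_duals ℂ T (r + 1) t ht
  -- the powers
  have hα' : ∀ j, IsPluri (m * N) fun G => α j G ^ N := fun j => pluri_pow (hα j) N
  have hβ' : IsPluri (m * N) fun G => ω 0 G ^ m := by
    have h1 := pluri_pow (hω 0).1 m
    rwa [mul_comm] at h1
  have hdg : ∀ i, (0 : ℤ) ≤ (Pool.Agent.U192.NM.dg K (up U X) i : ℤ) - 1 := by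
    intro i
    have h1 : 0 < Pool.Agent.U192.NM.dg K (up U X) i := by
      unfold Pool.Agent.U192.NM.dg
      exact Module.finrank_pos
    omega
  have hbas : ∀ j, Pool.Agent.U192.NM.BasePos U (d + (r + 1)) (m * N)
      (fun Q => ∑ i, 2 * ((m * N : ℕ) : ℤ) * ((Pool.Agent.U192.NM.dg K (up U X) i : ℤ) - 1) *
        Pool.Agent.U192.NM.pol (up U X i) Q) (pf x t (m * N) (α j Ex ^ N) (ω 0 Et ^ m)) := by
    intro j
    refine base_pos (α := fun G => α j G ^ N) (β := fun G => ω 0 G ^ m)
      (w := fun P => ∑ i, 2 * ((m * N : ℕ) : ℤ) *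
        ((Pool.Agent.U192.NM.dg K (up U X) i : ℤ) - 1) * Pool.Agent.U192.NM.pol (X i) P)
      hU hT hL (hα' j) hβ' ?_ ?_ ?_ hx ht hEx hEt ?_
    · intro P
      refine Finset.sum_nonneg fun i _ => ?_
      have := hdg i
      positivity
    · intro P hP G hG hne
      have h1 : α j G ≠ 0 := fun h => hne (by
        change α j G ^ N = 0
        rw [h, zero_pow hN.ne'])
      have h2 := hpos j P hP G hG h1
      change _ ≤ P.ord (α j G ^ N)
      rw [P.ord_pow]
      have h3 := mul_le_mul_of_nonneg_left h2 (Int.natCast_nonneg N)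
      refine le_trans (le_of_eq ?_) h3
      rw [Finset.mul_sum]
      refine Finset.sum_congr rfl fun i _ => ?_
      push_cast
      ring
    · intro P hP G hG
      have h1 := (show Ge P 0 (ω 0 G) from (hω 0).2.2 P hP (fun h => h) G hG).pow m
      rwa [mul_zero] at h1
    · intro Q P e hQ
      rw [Finset.mul_sum]
      refine Finset.sum_congr rfl fun i _ => ?_
      unfold up
      rw [pol_over hQ]
      push_cast
      ring
  obtain ⟨D, hD⟩ := Pool.Agent.W636.PG.exists_duals ℂ L (d + (r + 1)) (cz x t)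
    (Pool.Agent.Y174.basis_append hx (basis_over hsup hU hL ht))
  have hval : ∀ a b, pf (L := L) x t (m * N) a b D = (a : L) * (b : L) := by
    intro a b
    unfold pf
    have h1 : (Matrix.of fun i j => D i (cz x t j)).det = 1 := by
      have h2 : (Matrix.of fun i j => D i (cz x t j)) =
          (1 : Matrix (Fin (d + (r + 1))) (Fin (d + (r + 1))) L) := by
        ext i j
        rw [Matrix.of_apply, hD, Matrix.one_apply]
      rw [h2, Matrix.det_one]
    rw [h1, one_pow, one_mul]
  have hωne : ω 0 Et ≠ 0 := by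
    intro h0
    apply hD1
    have h1 : ω 0 D1 = _ := pluri_coord ht hEt (hω 0).1 D1
    rw [h1, h0, mul_zero]
  have hcoord : ∀ j, α j G0 = _ := fun j => pluri_coord hx hEx (hα j) G0
  have hdet0 : (Matrix.of fun i j => G0 i (x j)).det ^ m ≠ 0 := by
    intro h0
    apply hG0
    rw [hcoord 0, h0, zero_mul]
  have hαne : α 0 Ex ≠ 0 := by
    intro h0
    apply hG0
    rw [hcoord 0, h0, mul_zero]
  have hratio : ∀ j, α j Ex / α 0 Ex = α j G0 / α 0 G0 := by
    intro j
    rw [hcoord 0, hcoord j]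
    field_simp
  have hmN : 1 ≤ m * N := Nat.mul_pos hm hN
  have hres := Pool.Agent.U192.NM.abu (K := K) (L := L) (Λ := U) (F := L) U (d := d) (r := r)
    (m := m * N) hmN hU hL (by
      rw [eq_top_iff]
      intro z _
      exact IntermediateField.subset_adjoin _ _ ⟨z, rfl⟩)
    (fun z hz => closed_in hsup hU hT hL hz) (numLe_base hsup hU hT hL hYn) (up U X) ?_
    (θ := fun j => pf x t (m * N) (α j Ex ^ N) (ω 0 Et ^ m)) (fun j => pf_pluri x t _ _ _)
    hbas (D := D) ?_ ?_
  · refine ⟨?_, hres.2⟩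
    have h1 := hres.1
    tfae_have 1 ↔ 2 := h1.out 0 1
    tfae_have 2 ↔ 3 := h1.out 1 2
    tfae_finish
  · have h1 := congrArg (IntermediateField.map U.val) hX
    rw [IntermediateField.adjoin_map, ← AlgHom.fieldRange_eq_map,
      IntermediateField.fieldRange_val] at h1
    refine Eq.trans ?_ h1
    congr 1
    rw [Set.image_iUnion]
    refine Set.iUnion_congr fun i => ?_
    unfold up
    rw [Finset.coe_map]
    rfl
  · rw [hval]
    have h1 : ((α 0 Ex ^ N : U) : L) ≠ 0 := by
      rw [Ne, ZeroMemClass.coe_eq_zero]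
      exact pow_ne_zero _ hαne
    have h2 : ((ω 0 Et ^ m : T) : L) ≠ 0 := by
      rw [Ne, ZeroMemClass.coe_eq_zero]
      exact pow_ne_zero _ hωne
    exact mul_ne_zero h1 h2
  · have h2 : ((ω 0 Et ^ m : T) : L) ≠ 0 := by
      rw [Ne, ZeroMemClass.coe_eq_zero]
      exact pow_ne_zero _ hωne
    have h3 : (fun j : Fin d => pf (L := L) x t (m * N) (α j.succ Ex ^ N) (ω 0 Et ^ m) D /
        pf (L := L) x t (m * N) (α 0 Ex ^ N) (ω 0 Et ^ m) D) =
        fun j : Fin d => U.val ((α j.succ G0 / α 0 G0) ^ N) := by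
      funext j
      rw [hval, hval, mul_div_mul_right _ _ h2, ← hratio, div_pow]
      rfl
    rw [h3]
    exact (indep_pow hN hind).map' (f := U.val) U.val.injective

end

end Pool.Agent.U192.PB
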