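import Pool.Agent.U192.PB.Base
import Pool.Agent.U192.NM.Main

/-!
Products of pluricanonical forms on the factors of a product of two varieties.
-/

set_option autoImplicit false
set_option linter.overlappingInstances false
set_option linter.unusedSectionVars false

open FF IntermediateField Pool.Agent.W619.PQ Pool.Agent.W603.LV Pool.Agent.Y172
open Pool.Agent.W602.GT (Divisorial DerReg IsPluri KodGe)

namespace Pool.Agent.U192.PB

section

variable {k K : Type} [Field k] [Field K] [Algebra k K] {n : ℕ}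

theorem ge_det_col {ι : Type*} [Fintype ι] [DecidableEq ι] (v : Place k K) (A : Matrix ι ι K)
    (a : ι → ℤ) (hA : ∀ i j, Ge v (a j) (A i j)) : Ge v (∑ j, a j) A.det := by
  rw [Matrix.det_apply']
  refine Ge.sum _ _ fun σ _ => ?_
  have h1 : Ge v (∑ i, a i) (∏ i, A (σ i) i) := Ge.prod _ _ _ fun i _ => hA _ _
  have h2 := (Ge.intCast (P := v) (Equiv.Perm.sign σ : ℤ)).mul h1
  rwa [zero_add] at h2

end

section

variable {L : Type} [Field L] [Algebra ℂ L]

/-- **Coordinates of a factor** at a place of the product. -/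
theorem exists_chart (M : IntermediateField ℂ L) [Algebra.EssFiniteType ℂ M] {d N : ℕ} (hM : Algebra.trdeg ℂ M = d)
    (hL : Algebra.trdeg ℂ L = N) {Q : Place ℂ L} (hQ : Divisorial N Q) :
    ∃ (y : Fin d → M) (E : Fin d → Derivation ℂ M M) (c : Fin d → ℤ),
      IsTranscendenceBasis ℂ y ∧ (∀ i j, E i (y j) = if i = j then 1 else 0) ∧
      (∀ j, ∀ D : Derivation ℂ L L, DerReg Q D → Ge Q (c j) (D (y j : L))) ∧
      (((∀ z ∈ M, Q.ord z = 0) ∧ ∑ j, c j = 0) ∨ ∃ (P : Place ℂ M) (e : ℕ), Over Q P e ∧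
        Divisorial d P ∧ (∀ i, DerReg P (E i)) ∧ ∑ j, c j = (e : ℤ) - 1) := by
  classical
  by_cases hcon : ∀ z ∈ M, Q.ord z = 0
  · obtain ⟨y, hy⟩ := Pool.Agent.W636.PG.exists_basis ℂ M d hM
    obtain ⟨E, hE⟩ := Pool.Agent.W636.PG.exists_duals ℂ M d y hy
    refine ⟨y, E, fun _ => 0, hy, hE, fun j D hD => ?_, Or.inl ⟨hcon, by simp⟩⟩
    exact hD _ (Or.inr (hcon _ (y j).2).ge)
  · push Not at hcon
    obtain ⟨z, hz, hz0⟩ := hcon
    obtain ⟨e, P, hP⟩ := exists_over (K := M) Q ⟨⟨z, hz⟩, hz0⟩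
    have hPd : Divisorial d P := Pool.Agent.W619.Y.pDIVR.{0, 0} ℂ M L d N P Q e hM hL hP hQ
    obtain ⟨y, E, i0, hl⟩ := exists_loc hM hPd
    refine ⟨y, E, fun j => if j = i0 then (e : ℤ) - 1 else 0, hl.bas, hl.dual, fun j D hD => ?_,
      Or.inr ⟨P, e, hP, hPd, hl.pres, by simp⟩⟩
    by_cases hj : j = i0
    · change Ge Q (if j = i0 then (e : ℤ) - 1 else 0) (D (y j : L))
      rw [if_pos hj, hj]
      have h1 := ge_der_reg hD ((y i0 : M) : L)
      have h2 : Q.ord ((y i0 : M) : L) = e * P.ord (y i0) := hP.2 (y i0)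
      rw [h2, hl.unif, mul_one] at h1
      exact h1
    · change Ge Q (if j = i0 then (e : ℤ) - 1 else 0) (D (y j : L))
      rw [if_neg hj]
      exact hD _ (hP.reg.2 (hl.reg j))

end

section

variable {L : Type} [Field L] [Algebra ℂ L] {U T : IntermediateField ℂ L} {d n : ℕ}

/-- the coordinates of the product -/
def cz (x : Fin d → U) (t : Fin n → T) : Fin (d + n) → L :=
  Fin.append (fun l => (x l : L)) fun l => (t l : L)

/-- the product of the forms `a (dx)^m` and `b (dt)^m` -/
noncomputable def pf (x : Fin d → U) (t : Fin n → T) (m : ℕ) (a : U) (b : T) :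
    (Fin (d + n) → Derivation ℂ L L) → L :=
  fun D => (Matrix.of fun i j => D i (cz x t j)).det ^ m * ((a : L) * (b : L))

theorem pf_pluri (x : Fin d → U) (t : Fin n → T) (m : ℕ) (a : U) (b : T) :
    IsPluri m (pf x t m a b) :=
  det_pluri (cz x t) ((a : L) * (b : L)) m

theorem cz_det (x x' : Fin d → U) (t t' : Fin n → T) {E : Fin d → Derivation ℂ U U}
    {E' : Fin n → Derivation ℂ T T} (hx : IsTranscendenceBasis ℂ x)
    (ht : IsTranscendenceBasis ℂ t) (hE : ∀ i j, E i (x j) = if i = j then 1 else 0)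
    (hE' : ∀ i j, E' i (t j) = if i = j then 1 else 0) (D : Fin (d + n) → Derivation ℂ L L) :
    (Matrix.of fun i j => D i (cz x' t' j)).det = (Matrix.of fun i j => D i (cz x t j)).det *
      ((((Matrix.of fun i j => E i (x' j)).det : U) : L) *
        (((Matrix.of fun i j => E' i (t' j)).det : T) : L)) := by
  classical
  obtain ⟨A, hA⟩ : ∃ A : Matrix (Fin d) (Fin d) L,
      A = (algebraMap U L).mapMatrix (Matrix.of fun i j => E i (x' j)) := ⟨_, rfl⟩
  obtain ⟨B, hB⟩ : ∃ B : Matrix (Fin n) (Fin n) L,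
      B = (algebraMap T L).mapMatrix (Matrix.of fun i j => E' i (t' j)) := ⟨_, rfl⟩
  have hAdet : A.det = (((Matrix.of fun i j => E i (x' j)).det : U) : L) := by
    rw [hA, ← RingHom.map_det]
    rfl
  have hBdet : B.det = (((Matrix.of fun i j => E' i (t' j)).det : T) : L) := by
    rw [hB, ← RingHom.map_det]
    rfl
  have h1 : (Matrix.of fun i j => D i (cz x' t' j)) = (Matrix.of fun i j => D i (cz x t j)) *
      Matrix.reindex finSumFinEquiv finSumFinEquiv (Matrix.fromBlocks A 0 0 B) := by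
    ext i j
    rw [Matrix.mul_apply, Fin.sum_univ_add]
    refine Fin.addCases (fun j => ?_) (fun j => ?_) j
    · have h2 : ∀ l : Fin n, (Matrix.reindex finSumFinEquiv finSumFinEquiv
          (Matrix.fromBlocks A 0 0 B)) (Fin.natAdd d l) (Fin.castAdd n j) = 0 := by
        intro l
        simp [Matrix.reindex_apply]
      have h3 : ∀ l : Fin d, (Matrix.reindex finSumFinEquiv finSumFinEquiv
          (Matrix.fromBlocks A 0 0 B)) (Fin.castAdd n l) (Fin.castAdd n j) = A l j := by
        intro l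
        simp [Matrix.reindex_apply]
      rw [Finset.sum_congr rfl fun l _ => by rw [h3],
        Finset.sum_eq_zero (s := Finset.univ) (f := fun l : Fin n => _ * _) fun l _ => by
          rw [h2, mul_zero], add_zero]
      have h4 : cz x' t' (Fin.castAdd n j) = algebraMap U L (x' j) := Fin.append_left _ _ _
      have h5 := Pool.Agent.W308.PG.YLOC.expand (k := ℂ) (K := U) (L := L) x E hx hE (D i) (x' j)
      rw [Matrix.of_apply, h4, h5]
      refine Finset.sum_congr rfl fun l _ => ?_
      have h6 : cz x t (Fin.castAdd n l) = algebraMap U L (x l) := Fin.append_left _ _ _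
      rw [Matrix.of_apply, h6, hA]
      change _ = _ * algebraMap U L (E l (x' j))
      rw [mul_comm]
    · have h2 : ∀ l : Fin d, (Matrix.reindex finSumFinEquiv finSumFinEquiv
          (Matrix.fromBlocks A 0 0 B)) (Fin.castAdd n l) (Fin.natAdd d j) = 0 := by
        intro l
        simp [Matrix.reindex_apply]
      have h3 : ∀ l : Fin n, (Matrix.reindex finSumFinEquiv finSumFinEquiv
          (Matrix.fromBlocks A 0 0 B)) (Fin.natAdd d l) (Fin.natAdd d j) = B l j := by
        intro l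
        simp [Matrix.reindex_apply]
      rw [Finset.sum_congr (s₁ := (Finset.univ : Finset (Fin n))) rfl fun l _ => by rw [h3],
        Finset.sum_eq_zero (s := Finset.univ) (f := fun l : Fin d => _ * _) fun l _ => by
          rw [h2, mul_zero], zero_add]
      have h4 : cz x' t' (Fin.natAdd d j) = algebraMap T L (t' j) := Fin.append_right _ _ _
      have h5 := Pool.Agent.W308.PG.YLOC.expand (k := ℂ) (K := T) (L := L) t E' ht hE' (D i)
        (t' j)
      rw [Matrix.of_apply, h4, h5]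
      refine Finset.sum_congr rfl fun l _ => ?_
      have h6 : cz x t (Fin.natAdd d l) = algebraMap T L (t l) := Fin.append_right _ _ _
      rw [Matrix.of_apply, h6, hB]
      change _ = _ * algebraMap T L (E' l (t' j))
      rw [mul_comm]
  rw [h1, Matrix.det_mul, Matrix.det_reindex_self, Matrix.det_fromBlocks_zero₁₂, hAdet, hBdet]

/-- the product of two forms does not depend on the coordinates -/
theorem pf_change {x x' : Fin d → U} {t t' : Fin n → T} {E E1 : Fin d → Derivation ℂ U U}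
    {E' E1' : Fin n → Derivation ℂ T T} (hx : IsTranscendenceBasis ℂ x)
    (ht : IsTranscendenceBasis ℂ t) (hE : ∀ i j, E i (x j) = if i = j then 1 else 0)
    (hE' : ∀ i j, E' i (t j) = if i = j then 1 else 0) (hx' : IsTranscendenceBasis ℂ x')
    (ht' : IsTranscendenceBasis ℂ t') (hE1 : ∀ i j, E1 i (x' j) = if i = j then 1 else 0)
    (hE1' : ∀ i j, E1' i (t' j) = if i = j then 1 else 0) {m : ℕ}
    {α : (Fin d → Derivation ℂ U U) → U} (hα : IsPluri m α)
    {β : (Fin n → Derivation ℂ T T) → T} (hβ : IsPluri m β) :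
    pf (L := L) x t m (α E) (β E') = pf x' t' m (α E1) (β E1') := by
  funext D
  unfold pf
  have h1 : α E = _ := pluri_coord hx' hE1 hα E
  have h2 : β E' = _ := pluri_coord ht' hE1' hβ E'
  rw [cz_det x x' t t' hx ht hE hE' D, h1, h2]
  push_cast
  ring

/-- **Products of forms.** -/
theorem base_pos [Algebra.EssFiniteType ℂ U] [Algebra.EssFiniteType ℂ T] (hU : Algebra.trdeg ℂ U = d)
    (hT : Algebra.trdeg ℂ T = n) (hL : Algebra.trdeg ℂ L = (d + n : ℕ)) {m : ℕ}
    {α : (Fin d → Derivation ℂ U U) → U} (hα : IsPluri m α)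
    {β : (Fin n → Derivation ℂ T T) → T} (hβ : IsPluri m β) {w : Place ℂ U → ℤ}
    (hw : ∀ P, 0 ≤ w P)
    (hαw : ∀ P : Place ℂ U, Divisorial d P → ∀ G : Fin d → Derivation ℂ U U,
      (∀ i, DerReg P (G i)) → α G ≠ 0 → w P ≤ P.ord (α G))
    (hβr : ∀ P : Place ℂ T, Divisorial n P → ∀ G : Fin n → Derivation ℂ T T,
      (∀ i, DerReg P (G i)) → Ge P 0 (β G))
    {x : Fin d → U} {t : Fin n → T} {Ex : Fin d → Derivation ℂ U U}
    {Et : Fin n → Derivation ℂ T T} (hx : IsTranscendenceBasis ℂ x)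
    (ht : IsTranscendenceBasis ℂ t) (hEx : ∀ i j, Ex i (x j) = if i = j then 1 else 0)
    (hEt : ∀ i j, Et i (t j) = if i = j then 1 else 0) {b : Place ℂ L → ℤ}
    (hb : ∀ (Q : Place ℂ L) (P : Place ℂ U) (e : ℕ), Over Q P e → b Q = e * w P) :
    Pool.Agent.U192.NM.BasePos U (d + n) m b (pf x t m (α Ex) (β Et)) := by
  intro Q hQ G hG hne
  obtain ⟨y, E, c, hy, hE, hc, hcase⟩ := exists_chart U hU hL hQ
  obtain ⟨y', E', c', hy', hE', hc', hcase'⟩ := exists_chart T hT hL hQ
  rw [pf_change hx ht hEx hEt hy hy' hE hE' hα hβ] at hne ⊢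
  unfold pf at hne ⊢
  obtain ⟨δ, hδ⟩ : ∃ δ, δ = (Matrix.of fun i j => G i (cz y y' j)).det := ⟨_, rfl⟩
  rw [← hδ] at hne ⊢
  have hαne : (α E : L) ≠ 0 := fun h => hne (by rw [h]; ring)
  have hβne : (β E' : L) ≠ 0 := fun h => hne (by rw [h]; ring)
  have hprod : (α E : L) * (β E' : L) ≠ 0 := mul_ne_zero hαne hβne
  have hδne : δ ^ m ≠ 0 := fun h => hne (by rw [h, zero_mul])
  have hdet : Ge Q (∑ j, c j + ∑ j, c' j) δ := by
    have h1 := ge_det_col Q (Matrix.of fun i j => G i (cz y y' j))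
      (Fin.append c c' : Fin (d + n) → ℤ) (fun i j => by
        refine Fin.addCases (fun l => ?_) (fun l => ?_) j
        · have h2 : cz y y' (Fin.castAdd n l) = (y l : L) := Fin.append_left _ _ _
          rw [Fin.append_left, Matrix.of_apply, h2]
          exact hc l _ (hG i)
        · have h2 : cz y y' (Fin.natAdd d l) = (y' l : L) := Fin.append_right _ _ _
          rw [Fin.append_right, Matrix.of_apply, h2]
          exact hc' l _ (hG i))
    rw [Fin.sum_univ_add] at h1
    simp only [Fin.append_left, Fin.append_right] at h1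
    rw [hδ]
    exact h1
  have hdet' := (hdet.pow m).resolve_left hδne
  have hord : Q.ord (δ ^ m * ((α E : L) * (β E' : L))) =
      Q.ord (δ ^ m) + (Q.ord (α E : L) + Q.ord (β E' : L)) := by
    rw [Q.ord_mul hδne hprod, Q.ord_mul hαne hβne]
  have hc'0 : 0 ≤ ∑ j, c' j := by
    rcases hcase' with ⟨-, h⟩ | ⟨P, e, hP, -, -, h⟩
    · exact h.ge
    · rw [h]
      have := hP.1
      omega
  have hβ0 : 0 ≤ Q.ord (β E' : L) := by
    rcases hcase' with ⟨h, -⟩ | ⟨P, e, hP, hPd, hPE, -⟩
    · exact (h _ (β E').2).ge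
    · have h1 : Q.ord (β E' : L) = e * P.ord (β E') := hP.2 _
      rw [h1]
      have h2 := (hβr P hPd E' hPE).resolve_left fun h => hβne (by rw [h]; rfl)
      positivity
  have hm0 : (0 : ℤ) ≤ m := Int.natCast_nonneg m
  rw [hord]
  constructor
  · have hc0 : 0 ≤ ∑ j, c j := by
      rcases hcase with ⟨-, h⟩ | ⟨P, e, hP, -, -, h⟩
      · exact h.ge
      · rw [h]
        have := hP.1
        omega
    have hα0 : 0 ≤ Q.ord (α E : L) := by
      rcases hcase with ⟨h, -⟩ | ⟨P, e, hP, hPd, hPE, -⟩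
      · exact (h _ (α E).2).ge
      · have h1 : Q.ord (α E : L) = e * P.ord (α E) := hP.2 _
        rw [h1]
        have h2 := hαw P hPd E hPE fun h => hαne (by rw [h]; rfl)
        have h3 := (hw P).trans h2
        positivity
    have h1 : (0 : ℤ) ≤ m * (∑ j, c j + ∑ j, c' j) := by positivity
    linarith
  · intro c0 hnc hdvd
    rcases hcase with ⟨h, -⟩ | ⟨P, e, hP, hPd, hPE, hce⟩
    · obtain ⟨z, hz, hz0⟩ := hnc
      exact absurd (h z hz) hz0
    · obtain ⟨π, hπ0, hπ⟩ := P.surj
      have h1 : Q.ord (π : L) = e * P.ord π := hP.2 π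
      rw [hπ, mul_one] at h1
      have h2 := hdvd π π.2
      rw [h1] at h2
      have h3 : c0 ≤ e := Nat.le_of_dvd hP.1 (by exact_mod_cast h2)
      have h4 : Q.ord (α E : L) = e * P.ord (α E) := hP.2 _
      have h5 := hαw P hPd E hPE fun h => hαne (by rw [h]; rfl)
      rw [hb Q P e hP, h4]
      have h6 : (e : ℤ) * w P ≤ e * P.ord (α E) :=
        mul_le_mul_of_nonneg_left h5 (Int.natCast_nonneg e)
      have h7 : (m : ℤ) * ((c0 : ℤ) - 1) ≤ m * (∑ j, c j + ∑ j, c' j) := by
        refine mul_le_mul_of_nonneg_left ?_ hm0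
        rw [hce]
        have : (c0 : ℤ) ≤ e := by exact_mod_cast h3
        linarith
      linarith

end

end Pool.Agent.U192.PB
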